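import Pool.Agent.Q192.FD.Loc

/-!
# A critical point forced by the boundary values (helper192)
-/

set_option autoImplicit false

open Set Filter Topology Metric

namespace Pool.Agent.Q192.FD

theorem critical {f : ℂ → ℝ} (hf : ContDiffOn ℝ 1 f (closedBall (0 : ℂ) 1)) {m M : ℝ} (hmM : m < M)
    (hbd : ∀ x : ℂ, ‖x‖ = 1 → m ≤ f x ∧ f x ≤ M)
    (htan : ∀ x : ℂ, ‖x‖ = 1 → m < f x → f x < M →
      fderivWithin ℝ f (closedBall (0 : ℂ) 1) x (Complex.I * x) ≠ 0)
    {P Q : ℂ} (hP : ‖P‖ = 1) (hQ : ‖Q‖ = 1) (hfP : f P = M) (hfQ : f Q = M) (hPQ : P ≠ Q)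
    (hsep : ∀ C : Set ℂ, IsPreconnected C → (∀ x ∈ C, ‖x‖ = 1 ∧ f x = M) → P ∈ C → Q ∉ C) :
    ∃ x ∈ closedBall (0 : ℂ) 1, fderivWithin ℝ f (closedBall (0 : ℂ) 1) x = 0 := by
  by_contra hcon
  push Not at hcon
  set B : Set ℂ := closedBall (0 : ℂ) 1 with hB
  have hBc : IsCompact B := isCompact_closedBall _ _
  have hBv : Convex ℝ B := convex_closedBall _ _
  have hfc : ContinuousOn f B := hf.continuousOn
  have hmemB : ∀ x : ℂ, ‖x‖ = 1 → x ∈ B := fun x hx => by rw [hB, mem_closedBall_zero_iff, hx]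
  have hPB := hmemB P hP
  have hQB := hmemB Q hQ
  have hint : ∀ x ∈ ball (0 : ℂ) 1, fderiv ℝ f x ≠ 0 := by
    intro x hx
    have h1 := hcon x (ball_subset_closedBall hx)
    have h2 : fderivWithin ℝ f B x = fderiv ℝ f x :=
      fderivWithin_of_mem_nhds (mem_of_superset (isOpen_ball.mem_nhds hx) ball_subset_closedBall)
    rwa [h2] at h1
  have hsplit : ∀ x ∈ B, x ∈ ball (0 : ℂ) 1 ∨ ‖x‖ = 1 := by
    intro x hx
    rw [hB, mem_closedBall_zero_iff] at hx
    rcases hx.lt_or_eq with h | h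
    · left; rwa [mem_ball_zero_iff]
    · exact Or.inr h
  -- no interior maximum or minimum
  have hnomax : ∀ x ∈ ball (0 : ℂ) 1, ¬ ∀ y ∈ B, f y ≤ f x := by
    intro x hx h
    have hloc : IsLocalMax f x := by
      filter_upwards [isOpen_ball.mem_nhds hx] with y hy using h y (ball_subset_closedBall hy)
    exact hint x hx hloc.fderiv_eq_zero
  have hnomin : ∀ x ∈ ball (0 : ℂ) 1, ¬ ∀ y ∈ B, f x ≤ f y := by
    intro x hx h
    have hloc : IsLocalMin f x := by
      filter_upwards [isOpen_ball.mem_nhds hx] with y hy using h y (ball_subset_closedBall hy)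
    exact hint x hx hloc.fderiv_eq_zero
  have hle : ∀ x ∈ B, f x ≤ M := by
    obtain ⟨x0, hx0, hmax⟩ := hBc.exists_isMaxOn ⟨P, hPB⟩ hfc
    rcases hsplit x0 hx0 with h | h
    · exact absurd (fun y hy => hmax hy) (hnomax x0 h)
    · exact fun x hx => (hmax hx).trans (hbd x0 h).2
  have hge : ∀ x ∈ B, m ≤ f x := by
    obtain ⟨x0, hx0, hmin⟩ := hBc.exists_isMinOn ⟨P, hPB⟩ hfc
    rcases hsplit x0 hx0 with h | h
    · exact absurd (fun y hy => hmin hy) (hnomin x0 h)
    · exact fun x hx => (hbd x0 h).1.trans (hmin hx)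
  have hlt : ∀ x ∈ ball (0 : ℂ) 1, m < f x ∧ f x < M := by
    intro x hx
    have hxB := ball_subset_closedBall hx
    refine ⟨lt_of_le_of_ne (hge x hxB) fun h => ?_, lt_of_le_of_ne (hle x hxB) fun h => ?_⟩
    · exact hnomin x hx fun y hy => h ▸ hge y hy
    · exact hnomax x hx fun y hy => h ▸ hle y hy
  -- the chord
  have hseg : ∀ x ∈ segment ℝ P Q, x ∈ B ∧ m < f x := by
    intro x hx
    have hxB : x ∈ B := hBv.segment_subset hPB hQB hx
    refine ⟨hxB, ?_⟩
    rcases hsplit x hxB with h | h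
    · exact (hlt x h).1
    · -- a point of the segment on the circle is an end point
      have h1 : x = P ∨ x = Q := by
        by_contra hne
        push Not at hne
        have hop : x ∈ openSegment ℝ P Q := by
          exact mem_openSegment_of_ne_left_right hne.1.symm hne.2.symm hx
        have hsc : StrictConvex ℝ (closedBall (0:ℂ) 1) := strictConvex_closedBall ℝ 0 1
        have h2 := hsc.openSegment_subset hPB hQB hPQ hop
        rw [interior_closedBall _ one_ne_zero, mem_ball_zero_iff] at h2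
        linarith
      rcases h1 with rfl | rfl
      · rw [hfP]; exact hmM
      · rw [hfQ]; exact hmM
  have hcs : IsCompact (segment ℝ P Q) := by
    rw [segment_eq_image]
    exact isCompact_Icc.image (by fun_prop)
  obtain ⟨x0, hx0, hmin0⟩ := hcs.exists_isMinOn ⟨P, left_mem_segment ℝ P Q⟩
    (hfc.mono fun x hx => (hseg x hx).1)
  set c0 := f x0 with hc0
  have hc0m : m < c0 := (hseg x0 hx0).2
  have hc0M : c0 ≤ M := hle x0 (hseg x0 hx0).1
  have hsubs : segment ℝ P Q ⊆ Cl f B c0 := fun x hx => ⟨(hseg x hx).1, hmin0 hx⟩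
  have hstart : Q ∈ connectedComponentIn (Cl f B c0) P :=
    (convex_segment P Q).isPreconnected.subset_connectedComponentIn (left_mem_segment ℝ P Q)
      hsubs (right_mem_segment ℝ P Q)
  -- the supremum of the good levels
  set S : Set ℝ := {c | c0 ≤ c ∧ c ≤ M ∧ Q ∈ connectedComponentIn (Cl f B c) P} with hS
  have hS0 : c0 ∈ S := ⟨le_rfl, hc0M, hstart⟩
  have hSb : BddAbove S := ⟨M, fun c hc => hc.2.1⟩
  set c := sSup S with hc
  have hc0c : c0 ≤ c := le_csSup hSb hS0
  have hcM : c ≤ M := csSup_le ⟨c0, hS0⟩ fun x hx => hx.2.1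
  have hmono : ∀ c1 c2, c1 ≤ c2 → Q ∈ connectedComponentIn (Cl f B c2) P →
      Q ∈ connectedComponentIn (Cl f B c1) P := by
    intro c1 c2 h12 h
    have hsub : Cl f B c2 ⊆ Cl f B c1 := fun x hx => ⟨hx.1, h12.trans hx.2⟩
    exact connectedComponentIn_mono P hsub h
  have hPC : ∀ c', c' ≤ M → P ∈ Cl f B c' := fun c' h => ⟨hPB, by rw [hfP]; exact h⟩
  have hQC : ∀ c', c' ≤ M → Q ∈ Cl f B c' := fun c' h => ⟨hQB, by rw [hfQ]; exact h⟩
  have hcS : Q ∈ connectedComponentIn (Cl f B c) P := by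
    rcases hc0c.eq_or_lt with h | h
    · rw [← h]; exact hstart
    · refine comp_limit hBc hfc h (hPC c hcM) (hQC c hcM) fun c' h1 h2 => ?_
      obtain ⟨c'', hc'', h3⟩ := exists_lt_of_lt_csSup ⟨c0, hS0⟩ h2
      exact hmono c' c'' h3.le hc''.2.2
  have hceq : c = M := by
    by_contra hne
    have hlt' : c < M := lt_of_le_of_ne hcM hne
    have hL : ∀ x ∈ Cl f B c, Loc f B c x := by
      intro x hx
      rcases hx.2.eq_or_lt with h | h
      · rw [h]
        rcases hsplit x hx.1 with h1 | h1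
        · exact loc_interior hf h1 (hint x h1)
        · exact loc_boundary hf h1 (htan x h1 (by linarith) (by linarith))
      · exact loc_above hBv hfc hx.1 h
    have hj := joined_of_comp (P := P) (Q := Q) ⟨hPB, by rw [hfP]; exact hlt'⟩
      ⟨hQB, by rw [hfQ]; exact hlt'⟩ hL hcS
    obtain ⟨c', hcc', h1⟩ := comp_of_joined hfc hj
    have hP' : P ∈ Cl f B c' := by
      by_contra hP'
      rw [connectedComponentIn_eq_empty hP'] at h1
      exact h1
    have hc'M : c' ≤ M := by rw [← hfP]; exact hP'.2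
    have : c' ∈ S := ⟨hc0c.trans hcc'.le, hc'M, h1⟩
    exact absurd (le_csSup hSb this) (not_le.2 hcc')
  rw [hceq] at hcS
  refine hsep _ isPreconnected_connectedComponentIn ?_ (mem_connectedComponentIn (hPC M le_rfl)) hcS
  intro x hx
  have hx' := connectedComponentIn_subset _ _ hx
  have hfx : f x = M := le_antisymm (hle x hx'.1) hx'.2
  rcases hsplit x hx'.1 with h | h
  · exact absurd hfx (hlt x h).2.ne
  · exact ⟨h, hfx⟩

end Pool.Agent.Q192.FD
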