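import Mathlib

/-!
# The curve near the doubly covered circle (helper192)
-/

set_option autoImplicit false

open Set Filter Topology

namespace Pool.Agent.Q192.FD

noncomputable section

/-- `√(1+a²) sin (s - β)`, `tan β = a` -/
def pp (a s : ℝ) : ℝ := Real.sin s - a * Real.cos s

/-- `√(1+a²) cos (s - β)` -/
def qq (a s : ℝ) : ℝ := Real.cos s + a * Real.sin s

lemma pq (a s : ℝ) : pp a s ^ 2 + qq a s ^ 2 = 1 + a ^ 2 := by
  unfold pp qq
  have h := Real.sin_sq_add_cos_sq s
  linear_combination (1 + a ^ 2) * h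

def ww (S : Finset ℝ) (s : ℝ) : ℝ := ∏ a ∈ S, pp a s ^ 2

def Wt (S : Finset ℝ) (s : ℝ) : ℝ := ∑ a ∈ S, ww (S.erase a) s

def Rt (S : Finset ℝ) (b : ℝ → ℝ) (t : ℝ) : ℝ :=
  Real.sin t * ww S (2 * t) -
    Real.cos t * ∑ a ∈ S, b a * qq a (2 * t) * ww (S.erase a) (2 * t) / (1 + a ^ 2)

def Zt (S : Finset ℝ) (t : ℝ) : ℝ := Real.cos t * Wt S (2 * t)

def Kt (S : Finset ℝ) (b : ℝ → ℝ) (a t : ℝ) : ℝ :=
  Real.sin t * qq a (2 * t) * ww (S.erase a) (2 * t) +
    Real.cos t * (b a * ww (S.erase a) (2 * t) / (1 + a ^ 2) +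
      ∑ c ∈ S.erase a, ww ((S.erase c).erase a) (2 * t) *
        (b a - qq a (2 * t) * qq c (2 * t) * b c / (1 + c ^ 2)))

lemma ww_split {S : Finset ℝ} {a : ℝ} (ha : a ∈ S) (s : ℝ) :
    ww S s = pp a s ^ 2 * ww (S.erase a) s := by
  unfold ww
  exact (Finset.mul_prod_erase S (fun a => pp a s ^ 2) ha).symm

lemma factor {S : Finset ℝ} {b : ℝ → ℝ} {a : ℝ} (ha : a ∈ S) (t : ℝ) :
    Rt S b t * qq a (2 * t) + b a * Zt S t = pp a (2 * t) ^ 2 * Kt S b a t := by
  unfold Rt Zt Kt Wt
  rw [← Finset.add_sum_erase S (fun a => ww (S.erase a) (2 * t)) ha,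
    ← Finset.add_sum_erase S
      (fun a => b a * qq a (2 * t) * ww (S.erase a) (2 * t) / (1 + a ^ 2)) ha, ww_split ha]
  have hc : ∀ c ∈ S.erase a, ww (S.erase c) (2 * t) =
      pp a (2 * t) ^ 2 * ww ((S.erase c).erase a) (2 * t) := by
    intro c hc
    exact ww_split (Finset.mem_erase.2 ⟨(Finset.ne_of_mem_erase hc).symm, ha⟩) _
  have e1 : ∑ c ∈ S.erase a, ww (S.erase c) (2 * t) =
      pp a (2 * t) ^ 2 * ∑ c ∈ S.erase a, ww ((S.erase c).erase a) (2 * t) := by
    rw [Finset.mul_sum]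
    exact Finset.sum_congr rfl hc
  have e2 : ∑ c ∈ S.erase a, b c * qq c (2 * t) * ww (S.erase c) (2 * t) / (1 + c ^ 2) =
      pp a (2 * t) ^ 2 * ∑ c ∈ S.erase a, b c * qq c (2 * t) *
        ww ((S.erase c).erase a) (2 * t) / (1 + c ^ 2) := by
    rw [Finset.mul_sum]
    refine Finset.sum_congr rfl fun c h => ?_
    rw [hc c h]
    ring
  have e3 : ∑ c ∈ S.erase a, ww ((S.erase c).erase a) (2 * t) *
        (b a - qq a (2 * t) * qq c (2 * t) * b c / (1 + c ^ 2)) =
      b a * ∑ c ∈ S.erase a, ww ((S.erase c).erase a) (2 * t) -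
        qq a (2 * t) * ∑ c ∈ S.erase a, b c * qq c (2 * t) *
          ww ((S.erase c).erase a) (2 * t) / (1 + c ^ 2) := by
    rw [Finset.mul_sum, Finset.mul_sum, ← Finset.sum_sub_distrib]
    refine Finset.sum_congr rfl fun c _ => ?_
    ring
  rw [e1, e2, e3]
  have h := pq a (2 * t)
  have hpos : (1 + a ^ 2) ≠ 0 := by positivity
  have e4 : b a * ww (S.erase a) (2 * t) -
      qq a (2 * t) * (b a * qq a (2 * t) * ww (S.erase a) (2 * t) / (1 + a ^ 2)) =
      pp a (2 * t) ^ 2 * (b a * ww (S.erase a) (2 * t) / (1 + a ^ 2)) := by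
    field_simp
    linear_combination (-b a * ww (S.erase a) (2 * t)) * h
  linear_combination Real.cos t * e4

/-! ### smoothness and periodicity -/

lemma contDiff_pp (a : ℝ) : ContDiff ℝ ⊤ (pp a) := by
  unfold pp
  exact Real.contDiff_sin.sub (contDiff_const.mul Real.contDiff_cos)

lemma contDiff_qq (a : ℝ) : ContDiff ℝ ⊤ (qq a) := by
  unfold qq
  exact Real.contDiff_cos.add (contDiff_const.mul Real.contDiff_sin)

lemma contDiff_ww (S : Finset ℝ) : ContDiff ℝ ⊤ (ww S) := by
  unfold ww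
  exact contDiff_prod fun a _ => (contDiff_pp a).pow 2

lemma contDiff_two : ContDiff ℝ ⊤ (fun t : ℝ => 2 * t) := contDiff_const.mul contDiff_id

lemma contDiff_Rt (S : Finset ℝ) (b : ℝ → ℝ) : ContDiff ℝ ⊤ (Rt S b) := by
  unfold Rt
  refine (Real.contDiff_sin.mul ((contDiff_ww S).comp contDiff_two)).sub
    (Real.contDiff_cos.mul (ContDiff.sum fun a _ => ?_))
  exact (((contDiff_const.mul ((contDiff_qq a).comp contDiff_two)).mul
    ((contDiff_ww _).comp contDiff_two)).div_const _)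

lemma contDiff_Zt (S : Finset ℝ) : ContDiff ℝ ⊤ (Zt S) := by
  unfold Zt Wt
  exact Real.contDiff_cos.mul (ContDiff.sum fun a _ => (contDiff_ww _).comp contDiff_two)

lemma contDiff_Kt (S : Finset ℝ) (b : ℝ → ℝ) (a : ℝ) : ContDiff ℝ ⊤ (Kt S b a) := by
  unfold Kt
  have hq : ∀ a, ContDiff ℝ ⊤ (fun t : ℝ => qq a (2 * t)) := fun a =>
    (contDiff_qq a).comp contDiff_two
  have hw : ∀ S, ContDiff ℝ ⊤ (fun t : ℝ => ww S (2 * t)) := fun S =>
    (contDiff_ww S).comp contDiff_two
  refine ((Real.contDiff_sin.mul (hq a)).mul (hw _)).add (Real.contDiff_cos.mul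
    (((contDiff_const.mul (hw _)).div_const _).add (ContDiff.sum fun c _ => ?_)))
  exact (hw _).mul (contDiff_const.sub ((((hq a).mul (hq c)).mul contDiff_const).div_const _))

lemma per_pp (a t : ℝ) : pp a (2 * (t + 2 * Real.pi)) = pp a (2 * t) := by
  unfold pp
  have e : 2 * (t + 2 * Real.pi) = 2 * t + 2 * Real.pi + 2 * Real.pi := by ring
  rw [e, Real.sin_add_two_pi, Real.sin_add_two_pi, Real.cos_add_two_pi, Real.cos_add_two_pi]

lemma per_qq (a t : ℝ) : qq a (2 * (t + 2 * Real.pi)) = qq a (2 * t) := by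
  unfold qq
  have e : 2 * (t + 2 * Real.pi) = 2 * t + 2 * Real.pi + 2 * Real.pi := by ring
  rw [e, Real.sin_add_two_pi, Real.sin_add_two_pi, Real.cos_add_two_pi, Real.cos_add_two_pi]

lemma per_ww (S : Finset ℝ) (t : ℝ) : ww S (2 * (t + 2 * Real.pi)) = ww S (2 * t) := by
  unfold ww
  exact Finset.prod_congr rfl fun a _ => by rw [per_pp]

lemma per_Rt (S : Finset ℝ) (b : ℝ → ℝ) : Function.Periodic (Rt S b) (2 * Real.pi) := by
  intro t
  unfold Rt
  rw [per_ww, Real.sin_add_two_pi, Real.cos_add_two_pi]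
  simp only [per_ww, per_qq]

lemma per_Zt (S : Finset ℝ) : Function.Periodic (Zt S) (2 * Real.pi) := by
  intro t
  unfold Zt Wt
  rw [Real.cos_add_two_pi]
  simp only [per_ww]

lemma per_Kt (S : Finset ℝ) (b : ℝ → ℝ) (a : ℝ) : Function.Periodic (Kt S b a) (2 * Real.pi) := by
  intro t
  unfold Kt
  rw [Real.sin_add_two_pi, Real.cos_add_two_pi]
  simp only [per_ww, per_qq]

lemma bdd_of_per {g : ℝ → ℝ} (hg : Continuous g) (hp : Function.Periodic g (2 * Real.pi)) :
    ∃ C : ℝ, 0 < C ∧ ∀ t, |g t| ≤ C := by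
  have h := hp.compact_of_continuous (by positivity) hg
  obtain ⟨C, hC⟩ := h.isBounded.exists_norm_le
  refine ⟨|C| + 1, by positivity, fun t => ?_⟩
  have := hC (g t) (mem_range_self t)
  rw [Real.norm_eq_abs] at this
  linarith [le_abs_self C]

/-- `w_a` is positive off the other zeros; the sum of the `w_a` is positive -/
lemma Wt_pos {S : Finset ℝ} (hS : S.Nonempty) (s : ℝ) : 0 < Wt S s := by
  unfold Wt
  have h0 : ∀ a ∈ S, 0 ≤ ww (S.erase a) s := fun a _ =>
    Finset.prod_nonneg fun c _ => sq_nonneg _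
  -- at most one of the `pp a s` vanishes
  have huniq : ∀ a c : ℝ, pp a s = 0 → pp c s = 0 → a = c := by
    intro a c h1 h2
    unfold pp at h1 h2
    have hcos : Real.cos s ≠ 0 := by
      intro h
      rw [h, mul_zero, sub_zero] at h1
      have := Real.sin_sq_add_cos_sq s
      rw [h, h1] at this
      norm_num at this
    have h3 : (a - c) * Real.cos s = 0 := by linarith
    rcases mul_eq_zero.1 h3 with h | h
    · linarith
    · exact absurd h hcos
  by_cases h : ∃ a ∈ S, pp a s = 0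
  · obtain ⟨a, ha, h1⟩ := h
    refine Finset.sum_pos' h0 ⟨a, ha, ?_⟩
    refine Finset.prod_pos fun c hc => ?_
    have : pp c s ≠ 0 := fun h2 => (Finset.ne_of_mem_erase hc) (huniq c a h2 h1)
    positivity
  · push Not at h
    obtain ⟨a, ha⟩ := hS
    refine Finset.sum_pos' h0 ⟨a, ha, ?_⟩
    refine Finset.prod_pos fun c hc => ?_
    have := h c (Finset.mem_of_mem_erase hc)
    positivity

/-- the first two coordinates are `ρ cos 2t`, `ρ sin 2t` -/
def rho (S : Finset ℝ) (b : ℝ → ℝ) (δ t : ℝ) : ℝ := 1 + δ * Rt S b t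

/-- two parameters with the same point are equal modulo `2π` -/
lemma inj_param {S : Finset ℝ} (hS : S.Nonempty) (hS0 : (0:ℝ) ∉ S) (b : ℝ → ℝ) {δ : ℝ}
    (hδ : 0 < δ) (hρ : ∀ t, 0 < rho S b δ t) {t t' : ℝ}
    (h1 : rho S b δ t * Real.cos (2 * t) = rho S b δ t' * Real.cos (2 * t'))
    (h2 : rho S b δ t * Real.sin (2 * t) = rho S b δ t' * Real.sin (2 * t'))
    (h3 : Zt S t = Zt S t') : ∃ k : ℤ, t' = t + k * (2 * Real.pi) := by
  have e0 : rho S b δ t ^ 2 = rho S b δ t' ^ 2 := by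
    have a1 := Real.sin_sq_add_cos_sq (2 * t)
    have a2 := Real.sin_sq_add_cos_sq (2 * t')
    calc rho S b δ t ^ 2 = (rho S b δ t * Real.sin (2 * t)) ^ 2 +
          (rho S b δ t * Real.cos (2 * t)) ^ 2 := by linear_combination (-(rho S b δ t ^ 2)) * a1
      _ = (rho S b δ t' * Real.sin (2 * t')) ^ 2 +
          (rho S b δ t' * Real.cos (2 * t')) ^ 2 := by rw [h1, h2]
      _ = _ := by linear_combination (rho S b δ t' ^ 2) * a2
  have e1 : rho S b δ t = rho S b δ t' :=
    (pow_left_inj₀ (hρ t).le (hρ t').le two_ne_zero).1 e0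
  have hc : Real.cos (2 * t) = Real.cos (2 * t') := by
    rw [e1] at h1; exact mul_left_cancel₀ (hρ t').ne' h1
  have hs : Real.sin (2 * t) = Real.sin (2 * t') := by
    rw [e1] at h2; exact mul_left_cancel₀ (hρ t').ne' h2
  have hang : ((2 * t' : ℝ) : Real.Angle) = ((2 * t : ℝ) : Real.Angle) :=
    Real.Angle.cos_sin_inj hc.symm hs.symm
  obtain ⟨n, hn⟩ := (Real.Angle.angle_eq_iff_two_pi_dvd_sub).1 hang
  have ht' : t' = t + n * Real.pi := by linarith
  rcases Int.even_or_odd n with ⟨k, hk⟩ | ⟨k, hk⟩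
  · refine ⟨k, ?_⟩
    rw [ht', hk]
    push_cast
    ring
  · exfalso
    have ht2 : t' = t + Real.pi + k * (2 * Real.pi) := by
      rw [ht', hk]
      push_cast
      ring
    have hct : Real.cos t' = -Real.cos t := by
      rw [ht2, Real.cos_add_int_mul_two_pi, Real.cos_add_pi]
    have hst : Real.sin t' = -Real.sin t := by
      rw [ht2, Real.sin_add_int_mul_two_pi, Real.sin_add_pi]
    have hpp : ∀ a, pp a (2 * t') = pp a (2 * t) := fun a => by unfold pp; rw [hc, hs]
    have hqq : ∀ a, qq a (2 * t') = qq a (2 * t) := fun a => by unfold qq; rw [hc, hs]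
    have hww : ∀ S, ww S (2 * t') = ww S (2 * t) := fun S => by
      unfold ww
      exact Finset.prod_congr rfl fun a _ => by rw [hpp]
    have hW : Wt S (2 * t') = Wt S (2 * t) := by
      unfold Wt
      exact Finset.sum_congr rfl fun a _ => hww _
    have hcos0 : Real.cos t = 0 := by
      unfold Zt at h3
      rw [hct, hW] at h3
      have hWp := Wt_pos hS (2 * t)
      have : Real.cos t * Wt S (2 * t) = 0 := by linarith
      rcases mul_eq_zero.1 this with h | h
      · exact h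
      · exact absurd h hWp.ne'
    have hR : Rt S b t = Rt S b t' := by
      have : δ * (Rt S b t - Rt S b t') = 0 := by
        unfold rho at e1
        linarith
      rcases mul_eq_zero.1 this with h | h
      · exact absurd h hδ.ne'
      · linarith
    unfold Rt at hR
    rw [hct, hst, hcos0, hww] at hR
    have hw0 : Real.sin t * ww S (2 * t) = 0 := by linarith
    have hsin : Real.sin t ≠ 0 := by
      intro h
      have := Real.sin_sq_add_cos_sq t
      rw [h, hcos0] at this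
      norm_num at this
    have hc2 : Real.cos (2 * t) = -1 := by
      rw [Real.cos_two_mul, hcos0]; norm_num
    have hs2 : Real.sin (2 * t) = 0 := by
      rw [Real.sin_two_mul, hcos0]; ring
    have hwpos : 0 < ww S (2 * t) := by
      unfold ww
      refine Finset.prod_pos fun a ha => ?_
      have h4 : pp a (2 * t) = a := by
        unfold pp
        rw [hc2, hs2]
        ring
      rw [h4]
      have : a ≠ 0 := fun h => hS0 (h ▸ ha)
      positivity
    rcases mul_eq_zero.1 hw0 with h | h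
    · exact hsin h
    · exact hwpos.ne' h

end

end Pool.Agent.Q192.FD
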