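import Pool.Agent.Q192.FD.Curve

/-!
# The heights of the curve (helper192)
-/

set_option autoImplicit false

open Set Filter Topology

namespace Pool.Agent.Q192.FD

noncomputable section

/-- the height of the curve -/
def hgt (S : Finset ℝ) (b : ℝ → ℝ) (δ a t : ℝ) : ℝ :=
  rho S b δ t * qq a (2 * t) + δ * (b a * Zt S t)

lemma hgt_eq {S : Finset ℝ} {b : ℝ → ℝ} {a : ℝ} (ha : a ∈ S) (δ t : ℝ) :
    hgt S b δ a t = qq a (2 * t) + δ * (pp a (2 * t) ^ 2 * Kt S b a t) := by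
  rw [← factor ha]
  unfold hgt rho
  ring

lemma hasDerivAt_two (t : ℝ) : HasDerivAt (fun t : ℝ => 2 * t) 2 t := by
  simpa using (hasDerivAt_id t).const_mul (2:ℝ)

lemma hasDerivAt_qq (a t : ℝ) : HasDerivAt (fun t => qq a (2 * t)) (-2 * pp a (2 * t)) t := by
  unfold qq pp
  have h1 := (hasDerivAt_two t).cos
  have h2 := ((hasDerivAt_two t).sin).const_mul a
  exact (h1.add h2).congr_deriv (by ring)

lemma hasDerivAt_pp (a t : ℝ) : HasDerivAt (fun t => pp a (2 * t)) (2 * qq a (2 * t)) t := by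
  unfold qq pp
  have h1 := (hasDerivAt_two t).sin
  have h2 := ((hasDerivAt_two t).cos).const_mul a
  exact (h1.sub h2).congr_deriv (by ring)

lemma hasDerivAt_hgt {S : Finset ℝ} {b : ℝ → ℝ} {a : ℝ} (ha : a ∈ S) (δ t : ℝ) :
    HasDerivAt (hgt S b δ a) (pp a (2 * t) * (-2 + δ * (4 * qq a (2 * t) * Kt S b a t +
      pp a (2 * t) * deriv (Kt S b a) t))) t := by
  have e : hgt S b δ a = fun t => qq a (2 * t) + δ * (pp a (2 * t) ^ 2 * Kt S b a t) :=
    funext fun t => hgt_eq ha δ t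
  rw [e]
  have hK : HasDerivAt (Kt S b a) (deriv (Kt S b a) t) t :=
    (((contDiff_Kt S b a).differentiable (by simp)) t).hasDerivAt
  have h1 := (hasDerivAt_qq a t).add (((((hasDerivAt_pp a t).pow 2).mul hK)).const_mul δ)
  refine h1.congr_deriv ?_
  simp only [Nat.cast_ofNat, Nat.add_one_sub_one, pow_one, Pi.pow_apply]
  ring

lemma per_deriv {g : ℝ → ℝ} (hp : Function.Periodic g (2 * Real.pi)) :
    Function.Periodic (deriv g) (2 * Real.pi) := by
  intro t
  have h1 : (fun t => g (t + 2 * Real.pi)) = g := funext hp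
  have h2 := deriv_comp_add_const g (2 * Real.pi) t
  rw [h1] at h2
  exact h2.symm

/-- what we need for one slope -/
def Good (S : Finset ℝ) (b : ℝ → ℝ) (δ a : ℝ) : Prop :=
  ∀ t, (-√(1 + a ^ 2) ≤ hgt S b δ a t ∧ hgt S b δ a t ≤ √(1 + a ^ 2)) ∧
    (hgt S b δ a t = √(1 + a ^ 2) → qq a (2 * t) = √(1 + a ^ 2)) ∧
    (-√(1 + a ^ 2) < hgt S b δ a t → hgt S b δ a t < √(1 + a ^ 2) →
      ∃ h', HasDerivAt (hgt S b δ a) h' t ∧ h' ≠ 0)

lemma good_of {S : Finset ℝ} {b : ℝ → ℝ} {a : ℝ} (ha : a ∈ S) {C : ℝ}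
    (hK : ∀ t, |Kt S b a t| ≤ C) (hK' : ∀ t, |deriv (Kt S b a) t| ≤ C) {δ : ℝ} (hδ : 0 < δ)
    (hC : δ * (C * (6 * √(1 + a ^ 2))) < 1) : Good S b δ a := by
  intro t
  set c := √(1 + a ^ 2) with hc
  have hcsq : c ^ 2 = 1 + a ^ 2 := Real.sq_sqrt (by positivity)
  have hc0 : 0 < c := Real.sqrt_pos.2 (by positivity)
  have hC0 : 0 ≤ C := (abs_nonneg _).trans (hK t)
  have hpq := pq a (2 * t)
  rw [← hcsq] at hpq
  set p := pp a (2 * t) with hp
  set q := qq a (2 * t) with hq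
  have hqc : |q| ≤ c := abs_le_of_sq_le_sq (by nlinarith [sq_nonneg p]) hc0.le
  have hpc : |p| ≤ c := abs_le_of_sq_le_sq (by nlinarith [sq_nonneg q]) hc0.le
  have hq1 := abs_le.1 hqc
  have hKt := abs_le.1 (hK t)
  set K := Kt S b a t with hKd
  have heq : hgt S b δ a t = q + δ * (p ^ 2 * K) := hgt_eq ha δ t
  have hb1 : |δ * (K * (c + q))| < 1 := by
    rw [abs_mul, abs_mul, abs_of_pos hδ]
    have h1 : |c + q| ≤ 2 * c := by
      rw [abs_of_nonneg (by linarith)]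
      linarith
    calc δ * (|K| * |c + q|) ≤ δ * (C * (2 * c)) := by
          apply mul_le_mul_of_nonneg_left _ hδ.le
          exact mul_le_mul (hK t) h1 (abs_nonneg _) hC0
      _ ≤ δ * (C * (6 * c)) := by
          apply mul_le_mul_of_nonneg_left _ hδ.le
          apply mul_le_mul_of_nonneg_left _ hC0
          linarith
      _ < 1 := hC
  have hb2 : |δ * (K * (c - q))| < 1 := by
    rw [abs_mul, abs_mul, abs_of_pos hδ]
    have h1 : |c - q| ≤ 2 * c := by
      rw [abs_of_nonneg (by linarith)]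
      linarith
    calc δ * (|K| * |c - q|) ≤ δ * (C * (2 * c)) := by
          apply mul_le_mul_of_nonneg_left _ hδ.le
          exact mul_le_mul (hK t) h1 (abs_nonneg _) hC0
      _ ≤ δ * (C * (6 * c)) := by
          apply mul_le_mul_of_nonneg_left _ hδ.le
          apply mul_le_mul_of_nonneg_left _ hC0
          linarith
      _ < 1 := hC
  have hp2 : p ^ 2 = (c - q) * (c + q) := by linear_combination hpq
  have e1 : c - hgt S b δ a t = (c - q) * (1 - δ * (K * (c + q))) := by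
    rw [heq, hp2]; ring
  have e2 : hgt S b δ a t + c = (c + q) * (1 + δ * (K * (c - q))) := by
    rw [heq, hp2]; ring
  have hb1' := abs_lt.1 hb1
  have hb2' := abs_lt.1 hb2
  refine ⟨⟨?_, ?_⟩, ?_, ?_⟩
  · have : 0 ≤ (c + q) * (1 + δ * (K * (c - q))) :=
      mul_nonneg (by linarith) (by linarith)
    linarith
  · have : 0 ≤ (c - q) * (1 - δ * (K * (c + q))) :=
      mul_nonneg (by linarith) (by linarith)
    linarith
  · intro h
    rw [h, sub_self] at e1
    rcases mul_eq_zero.1 e1.symm with h1 | h1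
    · linarith
    · linarith
  · intro h1 h2
    refine ⟨_, hasDerivAt_hgt ha δ t, ?_⟩
    rw [← hp, ← hq, ← hKd]
    have hp0 : p ≠ 0 := by
      intro h0
      have h3 : (c - q) * (c + q) = 0 := by rw [← hp2, h0]; ring
      rcases mul_eq_zero.1 h3 with h4 | h4
      · rw [h4, zero_mul] at e1
        linarith
      · rw [h4, zero_mul] at e2
        linarith
    refine mul_ne_zero hp0 ?_
    have h5 : |4 * q * K + p * deriv (Kt S b a) t| ≤ C * (6 * c) := by
      calc |4 * q * K + p * deriv (Kt S b a) t| ≤ |4 * q * K| + |p * deriv (Kt S b a) t| :=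
            abs_add_le _ _
        _ = 4 * |q| * |K| + |p| * |deriv (Kt S b a) t| := by
            rw [abs_mul, abs_mul, abs_mul, abs_of_pos (by norm_num : (0:ℝ) < 4)]
        _ ≤ 4 * c * C + c * C := by
            have h6 : |q| * |K| ≤ c * C := mul_le_mul hqc (hK t) (abs_nonneg _) hc0.le
            have h7 : |p| * |deriv (Kt S b a) t| ≤ c * C :=
              mul_le_mul hpc (hK' t) (abs_nonneg _) hc0.le
            nlinarith
        _ ≤ C * (6 * c) := by nlinarith [mul_nonneg hC0 hc0.le]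
    have h8 : |δ * (4 * q * K + p * deriv (Kt S b a) t)| < 1 := by
      rw [abs_mul, abs_of_pos hδ]
      exact (mul_le_mul_of_nonneg_left h5 hδ.le).trans_lt hC
    have h9 := abs_lt.1 h8
    linarith

/-- a small parameter works for all slopes -/
lemma exists_delta (S : Finset ℝ) (b : ℝ → ℝ) :
    ∃ δ : ℝ, 0 < δ ∧ (∀ t, 0 < rho S b δ t) ∧ ∀ a ∈ S, Good S b δ a := by
  obtain ⟨C0, hC0, hR⟩ := bdd_of_per (contDiff_Rt S b).continuous (per_Rt S b)
  have hC : ∀ a : ℝ, ∃ C : ℝ, (∀ t, |Kt S b a t| ≤ C) ∧ ∀ t, |deriv (Kt S b a) t| ≤ C := by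
    intro a
    obtain ⟨C1, -, h1⟩ := bdd_of_per (contDiff_Kt S b a).continuous (per_Kt S b a)
    obtain ⟨C2, -, h2⟩ := bdd_of_per
      ((contDiff_Kt S b a).continuous_deriv (by simp)) (per_deriv (per_Kt S b a))
    exact ⟨max C1 C2, fun t => (h1 t).trans (le_max_left _ _),
      fun t => (h2 t).trans (le_max_right _ _)⟩
  choose C hC1 hC2 using hC
  have ev1 : ∀ D : ℝ, ∀ᶠ δ in 𝓝[>] (0:ℝ), δ * D < 1 := by
    intro D
    have h1 : Tendsto (fun δ : ℝ => δ * D) (𝓝[>] 0) (𝓝 (0 * D)) :=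
      ((continuous_id.mul continuous_const).tendsto 0).mono_left nhdsWithin_le_nhds
    rw [zero_mul] at h1
    exact h1.eventually (Iio_mem_nhds one_pos)
  have ev2 : ∀ᶠ δ in 𝓝[>] (0:ℝ), ∀ a ∈ S, δ * (C a * (6 * √(1 + a ^ 2))) < 1 :=
    (Finset.eventually_all S).2 fun a _ => ev1 _
  obtain ⟨δ, ⟨h1, h2⟩, h3⟩ := (((ev1 C0).and ev2).and self_mem_nhdsWithin).exists
  have h3' : 0 < δ := h3
  refine ⟨δ, h3', fun t => ?_, fun a ha => good_of ha (hC1 a) (hC2 a) h3' (h2 a ha)⟩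
  unfold rho
  have h4 : |δ * Rt S b t| < 1 := by
    rw [abs_mul, abs_of_pos h3']
    exact (mul_le_mul_of_nonneg_left (hR t) h3'.le).trans_lt h1
  linarith [(abs_lt.1 h4).1]

/-- the two points with the greatest height -/
lemma top_points {a t t' : ℝ} (h : qq a (2 * t) = √(1 + a ^ 2))
    (h' : qq a (2 * t') = √(1 + a ^ 2)) :
    (∃ k : ℤ, t' = t + k * (2 * Real.pi)) ∨ ∃ k : ℤ, t' = t + Real.pi + k * (2 * Real.pi) := by
  have hsq : √(1 + a ^ 2) ^ 2 = 1 + a ^ 2 := Real.sq_sqrt (by positivity)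
  have key : ∀ s, qq a s = √(1 + a ^ 2) → Real.cos s = √(1 + a ^ 2) / (1 + a ^ 2) ∧
      Real.sin s = a * (√(1 + a ^ 2) / (1 + a ^ 2)) := by
    intro s hs
    have h1 := pq a s
    rw [hs, hsq] at h1
    have h2 : pp a s = 0 := by
      have : pp a s ^ 2 = 0 := by linarith
      exact pow_eq_zero_iff two_ne_zero |>.1 this
    unfold pp at h2
    unfold qq at hs
    have h3 : Real.sin s = a * Real.cos s := by linarith
    have hpos : (1 + a ^ 2) ≠ 0 := by positivity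
    have h4 : Real.cos s = √(1 + a ^ 2) / (1 + a ^ 2) := by
      rw [eq_div_iff hpos, ← hs, h3]
      ring
    exact ⟨h4, by rw [h3, h4]⟩
  obtain ⟨c1, s1⟩ := key _ h
  obtain ⟨c2, s2⟩ := key _ h'
  have hang : ((2 * t' : ℝ) : Real.Angle) = ((2 * t : ℝ) : Real.Angle) :=
    Real.Angle.cos_sin_inj (c2.trans c1.symm) (s2.trans s1.symm)
  obtain ⟨n, hn⟩ := (Real.Angle.angle_eq_iff_two_pi_dvd_sub).1 hang
  have ht' : t' = t + n * Real.pi := by linarith
  rcases Int.even_or_odd n with ⟨k, hk⟩ | ⟨k, hk⟩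
  · left
    refine ⟨k, ?_⟩
    rw [ht', hk]
    push_cast
    ring
  · right
    refine ⟨k, ?_⟩
    rw [ht', hk]
    push_cast
    ring

lemma exists_top (a : ℝ) : ∃ t, qq a (2 * t) = √(1 + a ^ 2) := by
  refine ⟨Real.arctan a / 2, ?_⟩
  have e : 2 * (Real.arctan a / 2) = Real.arctan a := by ring
  rw [e]
  unfold qq
  rw [Real.cos_arctan, Real.sin_arctan]
  have hpos : (0:ℝ) < 1 + a ^ 2 := by positivity
  have h0 : √(1 + a ^ 2) ≠ 0 := (Real.sqrt_pos.2 hpos).ne'
  rw [← mul_div_assoc, ← add_div, div_eq_iff h0, ← pow_two (√(1 + a ^ 2)), Real.sq_sqrt hpos.le]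
  ring

/-- at the greatest value of `qq` the height is the greatest value -/
lemma hgt_top {S : Finset ℝ} {b : ℝ → ℝ} {a : ℝ} (ha : a ∈ S) (δ : ℝ) {t : ℝ}
    (h : qq a (2 * t) = √(1 + a ^ 2)) : hgt S b δ a t = √(1 + a ^ 2) := by
  have hsq : √(1 + a ^ 2) ^ 2 = 1 + a ^ 2 := Real.sq_sqrt (by positivity)
  have h1 := pq a (2 * t)
  rw [h, hsq] at h1
  have h2 : pp a (2 * t) ^ 2 = 0 := by linarith
  rw [hgt_eq ha, h2, h]
  ring

lemma qq_shift (a t : ℝ) : qq a (2 * (t + Real.pi)) = qq a (2 * t) := by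
  unfold qq
  have e : 2 * (t + Real.pi) = 2 * t + 2 * Real.pi := by ring
  rw [e, Real.sin_add_two_pi, Real.cos_add_two_pi]

end

end Pool.Agent.Q192.FD
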