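import Pool.Agent.Q192.FD.Top

/-!
# The local structure at regular points (helper192)
-/

set_option autoImplicit false

open Set Filter Topology Metric

namespace Pool.Agent.Q192.FD

/-- above the level -/
lemma loc_above {f : ℂ → ℝ} {B : Set ℂ} (hB : Convex ℝ B) (hf : ContinuousOn f B) {c : ℝ} {x : ℂ}
    (hx : x ∈ B) (hcx : c < f x) : Loc f B c x := by
  have h1 : f ⁻¹' Ioi c ∈ 𝓝[B] x := (hf x hx) (Ioi_mem_nhds hcx)
  obtain ⟨ε, hε, h2⟩ := mem_nhdsWithin_iff.1 h1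
  refine ⟨ball x ε, isOpen_ball, mem_ball_self hε, ?_, ?_⟩
  · intro y hy hyU z hz hzU
    have hc : Convex ℝ (ball x ε ∩ B) := (convex_ball x ε).inter hB
    have hp : IsPathConnected (ball x ε ∩ B) := hc.isPathConnected ⟨y, hy, hyU.1⟩
    refine (hp.joinedIn y ⟨hy, hyU.1⟩ z ⟨hz, hzU.1⟩).mono fun w hw => ⟨hw.2, h2 hw⟩
  · intro y hy hyA
    exact subset_closure ⟨hy, hyA.1, h2 ⟨hy, hyA.1⟩⟩

/-- interior points -/
lemma loc_interior {f : ℂ → ℝ} (hf : ContDiffOn ℝ 1 f (closedBall (0 : ℂ) 1)) {x : ℂ}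
    (hx : x ∈ ball (0 : ℂ) 1) (hd : fderiv ℝ f x ≠ 0) :
    Loc f (closedBall (0 : ℂ) 1) (f x) x := by
  -- the direction
  obtain ⟨e, he⟩ : ∃ e : ℂ, 0 < fderiv ℝ f x e := by
    obtain ⟨v, hv⟩ : ∃ v, fderiv ℝ f x v ≠ 0 := by
      by_contra hcon
      push Not at hcon
      exact hd (ContinuousLinearMap.ext hcon)
    rcases lt_or_gt_of_ne hv with h | h
    · exact ⟨-v, by rw [map_neg]; linarith⟩
    · exact ⟨v, h⟩
  have he0 : e ≠ 0 := by
    rintro rfl
    rw [map_zero] at he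
    exact lt_irrefl _ he
  have hfo : ContDiffOn ℝ 1 f (ball (0 : ℂ) 1) := hf.mono ball_subset_closedBall
  have hcd : ContinuousOn (fun y => fderiv ℝ f y e) (ball (0 : ℂ) 1) :=
    (hfo.continuousOn_fderiv_of_isOpen isOpen_ball le_rfl).clm_apply continuousOn_const
  have hev : ∀ᶠ y in 𝓝 x, y ∈ ball (0 : ℂ) 1 ∧ 0 < fderiv ℝ f y e := by
    have h1 : ball (0 : ℂ) 1 ∈ 𝓝 x := isOpen_ball.mem_nhds hx
    exact (eventually_mem_set.2 h1).and
      ((hcd.continuousAt h1).eventually (Ioi_mem_nhds he))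
  obtain ⟨ρ, hρ, hball⟩ := Metric.eventually_nhds_iff_ball.1 hev
  set Φ : ℝ → ℝ → ℂ := fun α β => x + ((α : ℂ) + β * Complex.I) * e with hΦ
  have hne : 0 < ‖e‖ := norm_pos_iff.2 he0
  set a : ℝ := ρ / (4 * ‖e‖) with ha
  have ha0 : 0 < a := by positivity
  have hmem : ∀ α β : ℝ, |α| ≤ a → |β| ≤ a → Φ α β ∈ ball x ρ := by
    intro α β hα hβ
    rw [mem_ball, dist_eq_norm]
    have e1 : Φ α β - x = ((α : ℂ) + β * Complex.I) * e := by simp [hΦ]
    rw [e1, norm_mul]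
    have h2 : ‖(α : ℂ) + β * Complex.I‖ ≤ |α| + |β| := by
      refine (norm_add_le _ _).trans ?_
      simp
    calc ‖(α : ℂ) + β * Complex.I‖ * ‖e‖ ≤ (a + a) * ‖e‖ := by
          apply mul_le_mul_of_nonneg_right _ hne.le
          linarith
      _ = ρ / 2 := by rw [ha]; field_simp; ring
      _ < ρ := by linarith
  have hder : ∀ α β : ℝ, |α| ≤ a → |β| ≤ a →
      HasDerivAt (fun α => f (Φ α β)) (fderiv ℝ f (Φ α β) e) α := by
    intro α β hα hβ
    have hb := (hball _ (hmem α β hα hβ)).1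
    have hdf : HasFDerivAt f (fderiv ℝ f (Φ α β)) (Φ α β) :=
      ((hfo.differentiableOn one_ne_zero).differentiableAt
        (isOpen_ball.mem_nhds hb)).hasFDerivAt
    have hΦd : HasDerivAt (fun α : ℝ => Φ α β) e α := by
      have h1 : HasDerivAt (fun α : ℝ => (α : ℂ)) 1 α := Complex.ofRealCLM.hasDerivAt
      have h2 := ((h1.add_const ((β : ℂ) * Complex.I)).mul_const e).const_add x
      simpa [hΦ] using h2
    exact hdf.comp_hasDerivAt α hΦd
  have hmono : ∀ β : ℝ, |β| ≤ a → StrictMonoOn (fun α => f (Φ α β)) (Icc (-a) a) := by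
    intro β hβ
    refine strictMonoOn_of_deriv_pos (convex_Icc _ _) ?_ ?_
    · intro α hα
      exact (hder α β (abs_le.2 hα) hβ).continuousAt.continuousWithinAt
    · intro α hα
      rw [interior_Icc] at hα
      have hα' : |α| ≤ a := abs_le.2 ⟨hα.1.le, hα.2.le⟩
      rw [(hder α β hα' hβ).deriv]
      exact (hball _ (hmem α β hα' hβ)).2
  have h00 : Φ 0 0 = x := by simp [hΦ]
  have htop : f x < f (Φ a 0) := by
    have := hmono 0 (by simpa using ha0.le) (a := 0) (b := a) ⟨by linarith, ha0.le⟩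
      ⟨by linarith, le_rfl⟩ ha0
    simpa [h00] using this
  have hcΦ2 : Continuous fun β : ℝ => Φ a β := by
    simp only [hΦ]
    fun_prop
  have hevb : ∀ᶠ β in 𝓝 (0:ℝ), f x < f (Φ a β) := by
    have h1 : ContinuousAt f (Φ a 0) :=
      (hf.continuousOn.mono ball_subset_closedBall).continuousAt
        (isOpen_ball.mem_nhds (hball _ (hmem a 0 (by rw [abs_of_pos ha0]) (by simpa using
          ha0.le))).1)
    exact ((h1.comp (f := fun β : ℝ => Φ a β) hcΦ2.continuousAt).eventually (Ioi_mem_nhds htop))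
  obtain ⟨b, hb, hbb⟩ := Metric.eventually_nhds_iff_ball.1 hevb
  set b' : ℝ := min a (b / 2) with hb'
  have hb'0 : 0 < b' := lt_min ha0 (by linarith)
  have hJ : ∀ β ∈ Ioo (-b') b', |β| ≤ a := fun β hβ =>
    abs_le.2 ⟨by linarith [hβ.1, min_le_left a (b/2)], by linarith [hβ.2, min_le_left a (b/2)]⟩
  refine loc_of_chart (N := {y | ((y - x) / e).re ∈ Ioo (-a) a ∧ ((y - x) / e).im ∈ Ioo (-b') b'})
    ?_ ?_ Φ a (Ioo (-b') b') (convex_Ioo _ _) ?_ hcΦ2 ?_ ?_ ?_ ?_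
  · have h1 : Continuous fun y : ℂ => (y - x) / e := by fun_prop
    exact ((Complex.continuous_re.comp h1).isOpen_preimage _ isOpen_Ioo).inter
      ((Complex.continuous_im.comp h1).isOpen_preimage _ isOpen_Ioo)
  · simp [ha0, hb'0]
  · intro β
    simp only [hΦ]
    fun_prop
  · rintro y ⟨hy1, hy2⟩ -
    refine ⟨_, hy1, _, hy2, ?_⟩
    simp only [hΦ]
    rw [Complex.re_add_im]
    field_simp
    ring
  · intro α hα β hβ
    exact ball_subset_closedBall (hball _ (hmem α β (abs_le.2 hα) (hJ β hβ))).1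
  · intro β hβ
    exact hmono β (hJ β hβ)
  · intro β hβ
    refine hbb β ?_
    rw [mem_ball, dist_zero_right, Real.norm_eq_abs]
    have := min_le_right a (b/2)
    exact abs_lt.2 ⟨by linarith [hβ.1], by linarith [hβ.2]⟩

/-- boundary points with nonzero tangential derivative -/
lemma loc_boundary {f : ℂ → ℝ} (hf : ContDiffOn ℝ 1 f (closedBall (0 : ℂ) 1)) {x : ℂ}
    (hx : ‖x‖ = 1) (hd : fderivWithin ℝ f (closedBall (0 : ℂ) 1) x (Complex.I * x) ≠ 0) :
    Loc f (closedBall (0 : ℂ) 1) (f x) x := by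
  set B : Set ℂ := closedBall (0 : ℂ) 1 with hB
  have hxB : x ∈ B := by rw [hB, mem_closedBall_zero_iff, hx]
  have hx0 : x ≠ 0 := by
    rintro rfl
    simp at hx
  have hud : UniqueDiffOn ℝ B := uniqueDiffOn_convex (convex_closedBall _ _) (by
    rw [interior_closedBall _ one_ne_zero]
    exact ⟨0, mem_ball_self one_pos⟩)
  obtain ⟨σ, hσ, hσd⟩ : ∃ σ : ℝ, σ ^ 2 = 1 ∧ 0 < σ * fderivWithin ℝ f B x (Complex.I * x) := by
    rcases lt_or_gt_of_ne hd with h | h
    · exact ⟨-1, by norm_num, by linarith⟩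
    · exact ⟨1, by norm_num, by linarith⟩
  have hcd : ContinuousOn (fun y => σ * fderivWithin ℝ f B y (Complex.I * y)) B :=
    continuousOn_const.mul ((hf.continuousOn_fderivWithin hud le_rfl).clm_apply (by fun_prop))
  have hev : ∀ᶠ y in 𝓝[B] x, 0 < σ * fderivWithin ℝ f B y (Complex.I * y) :=
    (hcd x hxB) (Ioi_mem_nhds hσd)
  obtain ⟨ρ, hρ, hball⟩ := mem_nhdsWithin_iff.1 hev
  set Φ : ℝ → ℝ → ℂ := fun α β => (β : ℂ) * Complex.exp ((σ * α : ℝ) * Complex.I) * x with hΦ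
  have hnorm : ∀ α β : ℝ, ‖Φ α β‖ = |β| := by
    intro α β
    simp only [hΦ]
    rw [norm_mul, norm_mul, Complex.norm_exp_ofReal_mul_I, hx, mul_one, mul_one, Complex.norm_real,
      Real.norm_eq_abs]
  -- closeness
  have hcont : Continuous fun p : ℝ × ℝ => Φ p.1 p.2 := by
    simp only [hΦ]
    fun_prop
  have h01 : Φ 0 1 = x := by simp [hΦ]
  obtain ⟨a, ha0, haπ, hclose⟩ : ∃ a : ℝ, 0 < a ∧ a < 1 ∧ ∀ α β : ℝ, |α| ≤ a → |β - 1| ≤ a →
      Φ α β ∈ ball x ρ := by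
    have h1 : (fun p : ℝ × ℝ => Φ p.1 p.2) ⁻¹' ball x ρ ∈ 𝓝 ((0:ℝ), (1:ℝ)) := by
      apply hcont.continuousAt
      simp only [h01]
      exact ball_mem_nhds x hρ
    obtain ⟨r, hr, hr2⟩ := Metric.mem_nhds_iff.1 h1
    refine ⟨min (r / 2) (1 / 2), by positivity, by
      have := min_le_right (r/2) (1/2 : ℝ); linarith, fun α β hα hβ => ?_⟩
    have hm : ((α, β) : ℝ × ℝ) ∈ ball ((0:ℝ), (1:ℝ)) r := by
      rw [mem_ball, Prod.dist_eq, Real.dist_eq, Real.dist_eq, sub_zero]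
      have := min_le_left (r/2) (1/2 : ℝ)
      exact max_lt (by simp only; linarith) (by simp only; linarith)
    exact hr2 hm
  have hinB : ∀ α β : ℝ, β ∈ Icc (0:ℝ) 1 → Φ α β ∈ B := by
    intro α β hβ
    rw [hB, mem_closedBall_zero_iff, hnorm, abs_of_nonneg hβ.1]
    exact hβ.2
  have hder : ∀ α β : ℝ, |α| ≤ a → |β - 1| ≤ a → β ≤ 1 →
      HasDerivAt (fun α => f (Φ α β)) (σ * fderivWithin ℝ f B (Φ α β) (Complex.I * Φ α β)) α := by
    intro α β hα hβ hβ1
    have hβ0 : 0 ≤ β := by linarith [(abs_le.1 hβ).1]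
    have hdf : HasFDerivWithinAt f (fderivWithin ℝ f B (Φ α β)) B (Φ α β) :=
      ((hf.differentiableOn one_ne_zero) _ (hinB α β ⟨hβ0, hβ1⟩)).hasFDerivWithinAt
    have hΦd : HasDerivAt (fun α : ℝ => Φ α β) (σ • (Complex.I * Φ α β)) α := by
      have h1 : HasDerivAt (fun α : ℝ => ((σ * α : ℝ) : ℂ) * Complex.I) ((σ : ℂ) * Complex.I) α := by
        have h2 : HasDerivAt (fun α : ℝ => ((σ * α : ℝ) : ℂ)) (σ : ℂ) α := by
          have h3 : HasDerivAt (fun α : ℝ => σ * α) σ α := by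
            simpa using (hasDerivAt_id α).const_mul σ
          exact h3.ofReal_comp
        exact h2.mul_const _
      have h4 := ((h1.cexp).const_mul (β : ℂ)).mul_const x
      have e4 : (β : ℂ) * (Complex.exp ((σ * α : ℝ) * Complex.I) * ((σ : ℂ) * Complex.I)) * x =
          σ • (Complex.I * Φ α β) := by
        simp only [hΦ, Complex.real_smul]
        ring
      rw [← e4]
      exact h4
    have h5 := hdf.comp_hasDerivAt α hΦd (Filter.Eventually.of_forall fun t =>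
      hinB t β ⟨hβ0, hβ1⟩)
    have e5 : fderivWithin ℝ f B (Φ α β) (σ • (Complex.I * Φ α β)) =
        σ * fderivWithin ℝ f B (Φ α β) (Complex.I * Φ α β) := by
      rw [map_smul, smul_eq_mul]
    rw [← e5]
    exact h5
  have hmono : ∀ β : ℝ, |β - 1| ≤ a → β ≤ 1 → StrictMonoOn (fun α => f (Φ α β)) (Icc (-a) a) := by
    intro β hβ hβ1
    refine strictMonoOn_of_deriv_pos (convex_Icc _ _) ?_ ?_
    · intro α hα
      exact (hder α β (abs_le.2 hα) hβ hβ1).continuousAt.continuousWithinAt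
    · intro α hα
      rw [interior_Icc] at hα
      have hα' : |α| ≤ a := abs_le.2 ⟨hα.1.le, hα.2.le⟩
      rw [(hder α β hα' hβ hβ1).deriv]
      exact hball ⟨hclose α β hα' hβ, hinB α β ⟨by linarith [(abs_le.1 hβ).1], hβ1⟩⟩
  have htop : f x < f (Φ a 1) := by
    have := hmono 1 (by simpa using ha0.le) le_rfl (a := 0) (b := a) ⟨by linarith, ha0.le⟩
      ⟨by linarith, le_rfl⟩ ha0
    simpa [h01] using this
  have hcΦ2 : Continuous fun β : ℝ => Φ a β := by
    simp only [hΦ]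
    fun_prop
  have hevb : ∀ᶠ β in 𝓝[Icc (0:ℝ) 1] (1:ℝ), f x < f (Φ a β) := by
    have h1 : ContinuousWithinAt (fun β : ℝ => f (Φ a β)) (Icc (0:ℝ) 1) 1 := by
      have h2 : ContinuousWithinAt f B (Φ a 1) :=
        hf.continuousOn _ (hinB a 1 ⟨zero_le_one, le_rfl⟩)
      exact h2.comp (f := fun β : ℝ => Φ a β) hcΦ2.continuousWithinAt fun β hβ => hinB a β hβ
    exact h1 (Ioi_mem_nhds htop)
  obtain ⟨b, hb, hbb⟩ := mem_nhdsWithin_iff.1 hevb
  set b' : ℝ := min a (b / 2) with hb'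
  have hb'0 : 0 < b' := lt_min ha0 (by linarith)
  have hb'a : b' ≤ a := min_le_left _ _
  have hJ : ∀ β ∈ Ioc (1 - b') 1, |β - 1| ≤ a ∧ β ≤ 1 := fun β hβ =>
    ⟨abs_le.2 ⟨by linarith [hβ.1], by linarith [hβ.2]⟩, hβ.2⟩
  refine loc_of_chart (N := {y | 1 - b' < ‖y‖} ∩ (fun y => y / x) ⁻¹'
      (Complex.slitPlane ∩ Complex.arg ⁻¹' Ioo (-a) a))
    ?_ ?_ Φ a (Ioc (1 - b') 1) (convex_Ioc _ _) ?_ hcΦ2 ?_ ?_ ?_ ?_
  · refine IsOpen.inter (isOpen_lt continuous_const continuous_norm) ?_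
    refine IsOpen.preimage (by fun_prop) ?_
    have h1 : ContinuousOn Complex.arg Complex.slitPlane := fun z hz =>
      (Complex.continuousAt_arg hz).continuousWithinAt
    exact h1.isOpen_inter_preimage Complex.isOpen_slitPlane isOpen_Ioo
  · refine ⟨by simp only [mem_ofPred_eq, hx]; linarith, ?_⟩
    simp only [mem_preimage, div_self hx0, mem_inter_iff, Complex.arg_one]
    exact ⟨Complex.one_mem_slitPlane, by simp [ha0]⟩
  · intro β
    simp only [hΦ]
    fun_prop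
  · rintro y ⟨hy1, hy2, hy3⟩ hyB
    have hyB' : ‖y‖ ≤ 1 := by rwa [hB, mem_closedBall_zero_iff] at hyB
    have h1 : (‖y / x‖ : ℂ) * Complex.exp (Complex.arg (y / x) * Complex.I) = y / x :=
      Complex.norm_mul_exp_arg_mul_I _
    rw [norm_div, hx, div_one] at h1
    refine ⟨σ * Complex.arg (y / x), ?_, ‖y‖, ⟨hy1, hyB'⟩, ?_⟩
    · have h2 : |σ| = 1 := by
        have h3 : |σ| ^ 2 = 1 := by rw [sq_abs, hσ]
        nlinarith [abs_nonneg σ]
      have h4 : |Complex.arg (y / x)| < a := abs_lt.2 hy3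
      have h5 : |σ * Complex.arg (y / x)| < a := by rw [abs_mul, h2, one_mul]; exact h4
      exact abs_lt.1 h5
    · simp only [hΦ]
      have h6 : σ * (σ * Complex.arg (y / x)) = Complex.arg (y / x) := by
        rw [← mul_assoc, ← pow_two, hσ, one_mul]
      rw [h6, h1]
      field_simp
  · intro α hα β hβ
    exact hinB α β ⟨by linarith [hβ.1], hβ.2⟩
  · intro β hβ
    exact hmono β (hJ β hβ).1 (hJ β hβ).2
  · intro β hβ
    refine hbb ⟨?_, by linarith [hβ.1], hβ.2⟩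
    rw [mem_ball, Real.dist_eq]
    have := min_le_right a (b/2)
    exact abs_lt.2 ⟨by linarith [hβ.1], by linarith [hβ.2]⟩

end Pool.Agent.Q192.FD
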