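import Pool.Agent.Q192.FD.Crit

/-!
# The tangent of a boundary parametrization (helper192)
-/

set_option autoImplicit false

open Set Filter Topology Metric
open scoped RealInnerProductSpace

namespace Pool.Agent.Q192.FD

variable {F : Type*} [NormedAddCommGroup F] [InnerProductSpace ℝ F]

/-- near a point of the curve where the height has nonzero derivative, the height of the points of
the whole curve changes at least linearly with the distance -/
lemma curve_local {γ : ℝ → F} (hc : Continuous γ) (hper : Function.Periodic γ (2 * Real.pi))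
    (hinj : ∀ t t', γ t = γ t' → ∃ k : ℤ, t' = t + k * (2 * Real.pi)) {t0 : ℝ} {γ' ξ : F}
    (hd : HasDerivAt γ γ' t0) (hξ : ⟪γ', ξ⟫ ≠ 0) :
    ∃ κ : ℝ, 0 < κ ∧ ∃ r : ℝ, 0 < r ∧ ∀ t, ‖γ t - γ t0‖ < r →
      κ * ‖γ t - γ t0‖ ≤ |⟪γ t - γ t0, ξ⟫| := by
  have hpi := Real.pi_pos
  -- near `t0`
  set A : ℝ := |⟪γ', ξ⟫| with hA
  have hA0 : 0 < A := abs_pos.2 hξ
  have hdh : HasDerivAt (fun t => ⟪γ t, ξ⟫) ⟪γ', ξ⟫ t0 := by
    have h1 := (hd.inner ℝ (hasDerivAt_const t0 ξ))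
    simpa using h1
  have ev1 : ∀ᶠ t in 𝓝 t0, A / 2 * |t - t0| ≤ |⟪γ t - γ t0, ξ⟫| := by
    have h1 := (hasDerivAt_iff_isLittleO.1 hdh).def (c := A / 2) (by positivity)
    filter_upwards [h1] with t ht
    rw [Real.norm_eq_abs, Real.norm_eq_abs, smul_eq_mul] at ht
    rw [inner_sub_left]
    have h2 : |(t - t0) * ⟪γ', ξ⟫| = A * |t - t0| := by rw [abs_mul, hA, mul_comm]
    have h3 := abs_sub_abs_le_abs_sub ((t - t0) * ⟪γ', ξ⟫) (⟪γ t, ξ⟫ - ⟪γ t0, ξ⟫)
    have h4 : |(t - t0) * ⟪γ', ξ⟫ - (⟪γ t, ξ⟫ - ⟪γ t0, ξ⟫)| =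
        |⟪γ t, ξ⟫ - ⟪γ t0, ξ⟫ - (t - t0) * ⟪γ', ξ⟫| := abs_sub_comm _ _
    rw [h4, h2] at h3
    linarith
  have ev2 : ∀ᶠ t in 𝓝 t0, ‖γ t - γ t0‖ ≤ (‖γ'‖ + 1) * |t - t0| := by
    have h1 := (hasDerivAt_iff_isLittleO.1 hd).def (c := 1) one_pos
    filter_upwards [h1] with t ht
    rw [one_mul, Real.norm_eq_abs] at ht
    calc ‖γ t - γ t0‖ = ‖(γ t - γ t0 - (t - t0) • γ') + (t - t0) • γ'‖ := by rw [sub_add_cancel]
      _ ≤ ‖γ t - γ t0 - (t - t0) • γ'‖ + ‖(t - t0) • γ'‖ := norm_add_le _ _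
      _ ≤ |t - t0| + |t - t0| * ‖γ'‖ := by
          rw [norm_smul, Real.norm_eq_abs]
          linarith
      _ = _ := by ring
  obtain ⟨ε, hε, hball⟩ := Metric.eventually_nhds_iff_ball.1 (ev1.and ev2)
  -- away from `t0`
  set Kc : Set ℝ := Icc (t0 - Real.pi) (t0 + Real.pi) ∩ {t | ε ≤ |t - t0|} with hKc
  have hKcc : IsCompact Kc :=
    isCompact_Icc.inter_right (isClosed_le continuous_const (by fun_prop))
  obtain ⟨r, hr, hrK⟩ : ∃ r : ℝ, 0 < r ∧ ∀ t ∈ Kc, r ≤ ‖γ t - γ t0‖ := by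
    rcases Kc.eq_empty_or_nonempty with he | hne
    · exact ⟨1, one_pos, fun t ht => by rw [he] at ht; exact absurd ht (notMem_empty t)⟩
    · obtain ⟨t1, ht1, hmin⟩ := hKcc.exists_isMinOn hne
        (f := fun t => ‖γ t - γ t0‖) (by fun_prop)
      refine ⟨‖γ t1 - γ t0‖, ?_, fun t ht => hmin ht⟩
      rw [norm_pos_iff, sub_ne_zero]
      intro heq
      obtain ⟨k, hk⟩ := hinj t1 t0 heq
      have h1 := ht1.1
      have h2 : ε ≤ |t1 - t0| := ht1.2
      have hk0 : k = 0 := by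
        have h3 : |(k : ℝ)| * (2 * Real.pi) ≤ Real.pi := by
          have h4 : |(k : ℝ) * (2 * Real.pi)| ≤ Real.pi := by
            have h5 : (k : ℝ) * (2 * Real.pi) = t0 - t1 := by linarith
            rw [h5]
            exact abs_le.2 ⟨by linarith [h1.2], by linarith [h1.1]⟩
          rwa [abs_mul, abs_of_pos (by positivity : (0:ℝ) < 2 * Real.pi)] at h4
        by_contra hne0
        have h6 : (1:ℝ) ≤ |(k : ℝ)| := by exact_mod_cast Int.one_le_abs hne0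
        nlinarith
      rw [hk0] at hk
      simp only [Int.cast_zero, zero_mul, add_zero] at hk
      rw [hk, sub_self, abs_zero] at h2
      linarith
  have hN : 0 < ‖γ'‖ + 1 := by positivity
  refine ⟨A / 2 / (‖γ'‖ + 1), by positivity, r, hr, fun t ht => ?_⟩
  -- reduce to the interval
  set s := toIcoMod (by positivity : (0:ℝ) < 2 * Real.pi) (t0 - Real.pi) t with hs
  have hsm := toIcoMod_mem_Ico (by positivity : (0:ℝ) < 2 * Real.pi) (t0 - Real.pi) t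
  have hγs : γ s = γ t := by
    rw [hs]
    have h1 := toIcoMod_add_toIcoDiv_zsmul (by positivity : (0:ℝ) < 2 * Real.pi) (t0 - Real.pi) t
    have h2 := (hper.zsmul (toIcoDiv (by positivity : (0:ℝ) < 2 * Real.pi) (t0 - Real.pi) t)) 
      (toIcoMod (by positivity : (0:ℝ) < 2 * Real.pi) (t0 - Real.pi) t)
    rw [h1] at h2
    exact h2.symm
  rw [← hγs] at ht ⊢
  have hsI : s ∈ Icc (t0 - Real.pi) (t0 + Real.pi) := ⟨hsm.1, by linarith [hsm.2]⟩
  have hsε : |s - t0| < ε := by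
    by_contra hge
    push Not at hge
    exact absurd (hrK s ⟨hsI, hge⟩) (not_le.2 ht)
  obtain ⟨h1, h2⟩ := hball s (by rw [mem_ball, Real.dist_eq]; exact hsε)
  calc A / 2 / (‖γ'‖ + 1) * ‖γ s - γ t0‖ ≤ A / 2 / (‖γ'‖ + 1) * ((‖γ'‖ + 1) * |s - t0|) := by
        apply mul_le_mul_of_nonneg_left h2 (by positivity)
    _ = A / 2 * |s - t0| := by field_simp
    _ ≤ _ := h1

/-- the tangential derivative of a boundary parametrization has nonzero height where the curve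
has nonzero height derivative -/
theorem tang {γ : ℝ → F} (hc : Continuous γ) (hper : Function.Periodic γ (2 * Real.pi))
    (hinj : ∀ t t', γ t = γ t' → ∃ k : ℤ, t' = t + k * (2 * Real.pi)) {t0 : ℝ} {γ' ξ : F}
    (hd : HasDerivAt γ γ' t0) (hξ : ⟪γ', ξ⟫ ≠ 0) {H : ℂ → F}
    (hH : ContDiffOn ℝ 1 H (closedBall (0 : ℂ) 1)) (hb : ∀ x : ℂ, ‖x‖ = 1 → H x ∈ range γ)
    {x : ℂ} (hx : ‖x‖ = 1) (hHx : H x = γ t0)
    (hv : fderivWithin ℝ H (closedBall (0 : ℂ) 1) x (Complex.I * x) ≠ 0) :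
    ⟪fderivWithin ℝ H (closedBall (0 : ℂ) 1) x (Complex.I * x), ξ⟫ ≠ 0 := by
  intro hzero
  set v := fderivWithin ℝ H (closedBall (0 : ℂ) 1) x (Complex.I * x) with hvdef
  obtain ⟨κ, hκ, r, hr, hloc⟩ := curve_local hc hper hinj hd hξ
  set c : ℝ → ℂ := fun θ => Complex.exp (θ * Complex.I) * x with hcdef
  have hcn : ∀ θ, ‖c θ‖ = 1 := by
    intro θ
    rw [hcdef]
    simp only
    rw [norm_mul, Complex.norm_exp_ofReal_mul_I, hx, mul_one]
  have hc0 : c 0 = x := by simp [hcdef]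
  have hcd : HasDerivAt c (Complex.I * x) 0 := by
    have h1 : HasDerivAt (fun θ : ℝ => (θ : ℂ) * Complex.I) Complex.I 0 := by
      have h2 : HasDerivAt (fun θ : ℝ => (θ : ℂ)) 1 0 := Complex.ofRealCLM.hasDerivAt
      simpa using h2.mul_const Complex.I
    have h3 := (h1.cexp).mul_const x
    simpa [hcdef] using h3
  have hxB : x ∈ closedBall (0 : ℂ) 1 := by rw [mem_closedBall_zero_iff, hx]
  have hdf : HasFDerivWithinAt H (fderivWithin ℝ H (closedBall (0 : ℂ) 1) x)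
      (closedBall (0 : ℂ) 1) (c 0) := by
    rw [hc0]
    exact ((hH.differentiableOn one_ne_zero) x hxB).hasFDerivWithinAt
  have hη : HasDerivAt (fun θ => H (c θ)) v 0 :=
    hdf.comp_hasDerivAt 0 hcd (Filter.Eventually.of_forall fun θ => by
      rw [mem_closedBall_zero_iff, hcn])
  have hg : HasDerivAt (fun θ => ⟪H (c θ), ξ⟫) 0 0 := by
    have h1 := hη.inner ℝ (hasDerivAt_const (0:ℝ) ξ)
    simp only [inner_zero_right, zero_add] at h1
    rwa [hzero] at h1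
  have hs1 := (hasDerivAt_iff_tendsto_slope.1 hη).norm
  have hs2 := (hasDerivAt_iff_tendsto_slope.1 hg).norm
  rw [norm_zero] at hs2
  have hev : ∀ᶠ θ in 𝓝[≠] (0:ℝ), κ * ‖slope (fun θ => H (c θ)) 0 θ‖ ≤
      ‖slope (fun θ => ⟪H (c θ), ξ⟫) 0 θ‖ := by
    have h1 : ∀ᶠ θ in 𝓝 (0:ℝ), ‖H (c θ) - γ t0‖ < r := by
      have h2 : ContinuousAt (fun θ => ‖H (c θ) - γ t0‖) 0 :=
        (hη.continuousAt.sub continuousAt_const).norm
      have h3 : ‖H (c 0) - γ t0‖ < r := by rw [hc0, hHx, sub_self, norm_zero]; exact hr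
      exact h2.eventually (Iio_mem_nhds h3)
    filter_upwards [h1.filter_mono nhdsWithin_le_nhds, self_mem_nhdsWithin] with θ hθ hθ0
    obtain ⟨t, ht⟩ := hb (c θ) (hcn θ)
    rw [slope_def_module, slope_def_module, norm_smul, norm_smul]
    simp only [hc0, hHx, sub_zero]
    rw [← ht] at hθ ⊢
    have h4 := hloc t hθ
    rw [← inner_sub_left, Real.norm_eq_abs (⟪γ t - γ t0, ξ⟫)]
    calc κ * (‖θ⁻¹‖ * ‖γ t - γ t0‖) = ‖θ⁻¹‖ * (κ * ‖γ t - γ t0‖) := by ring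
      _ ≤ _ := mul_le_mul_of_nonneg_left h4 (norm_nonneg _)
  have hlim := le_of_tendsto_of_tendsto (hs1.const_mul κ) hs2 hev
  have : 0 < κ * ‖v‖ := mul_pos hκ (norm_pos_iff.2 hv)
  linarith

end Pool.Agent.Q192.FD
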