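import Pool.Agent.Q192.FD.Height
import Pool.Agent.Q192.FD.Tang

/-!
# A frame which forces finitely many prescribed normal directions (helper192)
-/

set_option autoImplicit false

open Set Filter Topology Metric
open scoped RealInnerProductSpace

namespace Pool.Agent.Q192.FD

noncomputable section

abbrev E3 := EuclideanSpace ℝ (Fin 3)

/-- the vector `(1, x, x²)` -/
def mom (x : ℝ) : E3 := !₂[1, x, x ^ 2]

lemma inner_mom (x : ℝ) (v : E3) : ⟪mom x, v⟫ = v 0 + x * v 1 + x ^ 2 * v 2 := by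
  rw [mom, PiLp.inner_apply, Fin.sum_univ_three]
  simp
  ring

lemma exists_avoid (V : Finset E3) (hV : ∀ v ∈ V, v ≠ 0) (T : Finset ℝ) :
    ∃ x, x ∉ T ∧ ∀ v ∈ V, ⟪mom x, v⟫ ≠ 0 := by
  classical
  have hfin : ∀ v : E3, v ≠ 0 → {x : ℝ | ⟪mom x, v⟫ = 0}.Finite := by
    intro v hv
    set P : Polynomial ℝ := Polynomial.C (v 0) + Polynomial.C (v 1) * Polynomial.X +
      Polynomial.C (v 2) * Polynomial.X ^ 2 with hP
    have hP0 : P ≠ 0 := by
      intro h
      apply hv
      have c0 : P.coeff 0 = v 0 := by simp [hP]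
      have c1 : P.coeff 1 = v 1 := by
        simp [hP, Polynomial.coeff_C, Polynomial.coeff_X_pow]
      have c2 : P.coeff 2 = v 2 := by
        simp [hP, Polynomial.coeff_X_pow]
      rw [h] at c0 c1 c2
      simp only [Polynomial.coeff_zero] at c0 c1 c2
      ext i
      fin_cases i
      · exact c0.symm
      · exact c1.symm
      · exact c2.symm
    refine (P.roots.toFinset.finite_toSet).subset fun x hx => ?_
    rw [Finset.mem_coe, Multiset.mem_toFinset, Polynomial.mem_roots hP0, Polynomial.IsRoot.def]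
    have hx' : ⟪mom x, v⟫ = 0 := hx
    rw [inner_mom] at hx'
    simp only [hP, Polynomial.eval_add, Polynomial.eval_mul, Polynomial.eval_C,
      Polynomial.eval_X, Polynomial.eval_pow]
    linarith
  have hbad : ((T : Set ℝ) ∪ ⋃ v ∈ V, {x : ℝ | ⟪mom x, v⟫ = 0}).Finite := by
    refine T.finite_toSet.union ?_
    exact V.finite_toSet.biUnion fun v hv => hfin v (hV v hv)
  obtain ⟨x, hx⟩ := hbad.infinite_compl.nonempty
  refine ⟨x, fun h => hx (Or.inl h), fun v hv h => hx (Or.inr ?_)⟩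
  exact mem_iUnion₂.2 ⟨v, hv, h⟩

lemma mom_indep {x y z : ℝ} (hxy : x ≠ y) (hxz : x ≠ z) (hyz : y ≠ z) {X Y Z : ℝ}
    (h : X • mom x + Y • mom y + Z • mom z = 0) : X = 0 ∧ Y = 0 ∧ Z = 0 := by
  have h0 : X + Y + Z = 0 := by
    have := congrFun (congrArg WithLp.ofLp h) 0
    simpa [mom] using this
  have h1 : X * x + Y * y + Z * z = 0 := by
    have := congrFun (congrArg WithLp.ofLp h) 1
    simpa [mom] using this
  have h2 : X * x ^ 2 + Y * y ^ 2 + Z * z ^ 2 = 0 := by
    have := congrFun (congrArg WithLp.ofLp h) 2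
    simpa [mom] using this
  have hZ : Z * ((z - x) * (z - y)) = 0 := by
    linear_combination h2 - (x + y) * h1 + x * y * h0
  have hY : Y * ((y - x) * (y - z)) = 0 := by
    linear_combination h2 - (x + z) * h1 + x * z * h0
  have hX : X * ((x - y) * (x - z)) = 0 := by
    linear_combination h2 - (y + z) * h1 + y * z * h0
  have n1 : x - y ≠ 0 := sub_ne_zero.2 hxy
  have n2 : x - z ≠ 0 := sub_ne_zero.2 hxz
  have n3 : y - z ≠ 0 := sub_ne_zero.2 hyz
  have n1' : y - x ≠ 0 := sub_ne_zero.2 hxy.symm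
  have n2' : z - x ≠ 0 := sub_ne_zero.2 hxz.symm
  have n3' : z - y ≠ 0 := sub_ne_zero.2 hyz.symm
  refine ⟨?_, ?_, ?_⟩
  · exact (mul_eq_zero.1 hX).resolve_right (mul_ne_zero n1 n2)
  · exact (mul_eq_zero.1 hY).resolve_right (mul_ne_zero n1' n3)
  · exact (mul_eq_zero.1 hZ).resolve_right (mul_ne_zero n2' n3')

/-- the curve -/
def crv (S : Finset ℝ) (b : ℝ → ℝ) (δ : ℝ) (e f g : E3) (t : ℝ) : E3 :=
  (rho S b δ t * Real.cos (2 * t)) • e + (rho S b δ t * Real.sin (2 * t)) • f +
    (δ * Zt S t) • g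

lemma inner_crv (S : Finset ℝ) (b : ℝ → ℝ) (δ : ℝ) (e f g ξ : E3) (t : ℝ) :
    ⟪crv S b δ e f g t, ξ⟫ = rho S b δ t * Real.cos (2 * t) * ⟪e, ξ⟫ +
      rho S b δ t * Real.sin (2 * t) * ⟪f, ξ⟫ + δ * Zt S t * ⟪g, ξ⟫ := by
  unfold crv
  rw [inner_add_left, inner_add_left, real_inner_smul_left, real_inner_smul_left,
    real_inner_smul_left]

lemma contDiff_crv (S : Finset ℝ) (b : ℝ → ℝ) (δ : ℝ) (e f g : E3) :
    ContDiff ℝ ⊤ (crv S b δ e f g) := by
  unfold crv rho
  have h1 : ContDiff ℝ ⊤ (fun t => 1 + δ * Rt S b t) :=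
    contDiff_const.add (contDiff_const.mul (contDiff_Rt S b))
  have h2 : ContDiff ℝ ⊤ (fun t : ℝ => Real.cos (2 * t)) := Real.contDiff_cos.comp contDiff_two
  have h3 : ContDiff ℝ ⊤ (fun t : ℝ => Real.sin (2 * t)) := Real.contDiff_sin.comp contDiff_two
  exact (((h1.mul h2).smul contDiff_const).add ((h1.mul h3).smul contDiff_const)).add
    ((contDiff_const.mul (contDiff_Zt S)).smul contDiff_const)

lemma per_crv (S : Finset ℝ) (b : ℝ → ℝ) (δ : ℝ) (e f g : E3) :
    Function.Periodic (crv S b δ e f g) (2 * Real.pi) := by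
  intro t
  unfold crv rho
  have e1 : 2 * (t + 2 * Real.pi) = 2 * t + 2 * Real.pi + 2 * Real.pi := by ring
  rw [per_Rt S b t, per_Zt S t, e1, Real.sin_add_two_pi, Real.sin_add_two_pi,
    Real.cos_add_two_pi, Real.cos_add_two_pi]

/-- the main theorem, for discs in `ℂ` -/
theorem main (k : ℕ) (ξ : Fin k → E3) (hξ : ∀ i, ξ i ≠ 0) :
    ∃ γ : ℝ → E3, ContDiff ℝ ⊤ γ ∧ Function.Periodic γ (2 * Real.pi) ∧ (∀ t, deriv γ t ≠ 0) ∧
      (∀ t t', γ t = γ t' → ∃ k : ℤ, t' = t + k * (2 * Real.pi)) ∧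
      ∀ H : ℂ → E3, ContDiffOn ℝ 1 H (closedBall (0 : ℂ) 1) →
        (∀ x ∈ closedBall (0 : ℂ) 1,
          Function.Injective (fderivWithin ℝ H (closedBall (0 : ℂ) 1) x)) →
        H '' sphere (0 : ℂ) 1 = range γ →
        ∀ i, ∃ x ∈ closedBall (0 : ℂ) 1,
          ∀ v, ⟪fderivWithin ℝ H (closedBall (0 : ℂ) 1) x v, ξ i⟫ = 0 := by
  classical
  -- the directions
  obtain ⟨x, -, hx⟩ := exists_avoid (Finset.univ.image ξ) (by
    intro v hv
    obtain ⟨i, -, rfl⟩ := Finset.mem_image.1 hv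
    exact hξ i) ∅
  have hx' : ∀ i, ⟪mom x, ξ i⟫ ≠ 0 := fun i => hx _ (Finset.mem_image_of_mem ξ (Finset.mem_univ i))
  set η : Fin k × Fin k → E3 := fun p =>
    ⟪mom x, ξ p.2⟫ • ξ p.1 - ⟪mom x, ξ p.1⟫ • ξ p.2 with hη
  obtain ⟨y, hyx, hy⟩ := exists_avoid
    (Finset.univ.image ξ ∪ (Finset.univ.image η).filter fun v => v ≠ 0) (by
      intro v hv
      rcases Finset.mem_union.1 hv with h | h
      · obtain ⟨i, -, rfl⟩ := Finset.mem_image.1 h
        exact hξ i
      · exact (Finset.mem_filter.1 h).2) {x}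
  have hy' : ∀ i, ⟪mom y, ξ i⟫ ≠ 0 := fun i =>
    hy _ (Finset.mem_union_left _ (Finset.mem_image_of_mem ξ (Finset.mem_univ i)))
  have hyη : ∀ p, ⟪mom y, η p⟫ = 0 → η p = 0 := by
    intro p h
    by_contra hne
    exact hy _ (Finset.mem_union_right _ (Finset.mem_filter.2
      ⟨Finset.mem_image_of_mem η (Finset.mem_univ p), hne⟩)) h
  have hxy : x ≠ y := fun h => hyx (by rw [h]; exact Finset.mem_singleton_self _)
  obtain ⟨z, hz⟩ : ∃ z : ℝ, z ∉ ({x, y} : Finset ℝ) := Infinite.exists_notMem_finset _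
  have hxz : x ≠ z := fun h => hz (by simp [h])
  have hyz : y ≠ z := fun h => hz (by simp [h])
  set A : Fin k → ℝ := fun i => ⟪mom x, ξ i⟫ with hA
  set a : Fin k → ℝ := fun i => ⟪mom y, ξ i⟫ / A i with ha
  set β : Fin k → ℝ := fun i => ⟪mom z, ξ i⟫ / A i with hβ
  have ha0 : ∀ i, a i ≠ 0 := fun i => div_ne_zero (hy' i) (hx' i)
  have hcons : ∀ i j, a i = a j → β i = β j := by
    intro i j hij
    simp only [ha] at hij
    rw [div_eq_div_iff (hx' i) (hx' j)] at hij
    have h1 : ⟪mom y, η (i, j)⟫ = 0 := by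
      simp only [hη]
      rw [inner_sub_right, real_inner_smul_right, real_inner_smul_right]
      linarith
    have h2 := hyη _ h1
    have h3 : ⟪mom z, η (i, j)⟫ = 0 := by rw [h2, inner_zero_right]
    simp only [hη] at h3
    rw [inner_sub_right, real_inner_smul_right, real_inner_smul_right] at h3
    simp only [hβ]
    rw [div_eq_div_iff (hx' i) (hx' j)]
    linarith
  set b : ℝ → ℝ := fun r => if h : ∃ i, a i = r then β h.choose else 0 with hb
  have hbi : ∀ i, b (a i) = β i := by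
    intro i
    have h : ∃ j, a j = a i := ⟨i, rfl⟩
    simp only [hb]
    rw [dif_pos h]
    exact hcons _ _ h.choose_spec
  set S : Finset ℝ := insert 1 (Finset.univ.image a) with hS
  have hSn : S.Nonempty := ⟨1, Finset.mem_insert_self _ _⟩
  have hS0 : (0:ℝ) ∉ S := by
    intro h
    rcases Finset.mem_insert.1 h with h | h
    · exact zero_ne_one h
    · obtain ⟨i, -, hi⟩ := Finset.mem_image.1 h
      exact ha0 i hi
  have hSa : ∀ i, a i ∈ S := fun i =>
    Finset.mem_insert_of_mem (Finset.mem_image_of_mem a (Finset.mem_univ i))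
  obtain ⟨δ, hδ, hρ, hgood⟩ := exists_delta S b
  set γ : ℝ → E3 := crv S b δ (mom x) (mom y) (mom z) with hγ
  have hinj : ∀ t t', γ t = γ t' → ∃ k : ℤ, t' = t + k * (2 * Real.pi) := by
    intro t t' h
    have h1 : (rho S b δ t * Real.cos (2 * t) - rho S b δ t' * Real.cos (2 * t')) • mom x +
        (rho S b δ t * Real.sin (2 * t) - rho S b δ t' * Real.sin (2 * t')) • mom y +
        (δ * Zt S t - δ * Zt S t') • mom z = 0 := by
      have h2 : γ t - γ t' = 0 := by rw [h, sub_self]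
      rw [← h2, hγ]
      unfold crv
      module
    obtain ⟨e1, e2, e3⟩ := mom_indep hxy hxz hyz h1
    refine inj_param hSn hS0 b hδ hρ (by linarith) (by linarith) ?_
    have : δ * (Zt S t - Zt S t') = 0 := by linarith
    rcases mul_eq_zero.1 this with h | h
    · exact absurd h hδ.ne'
    · linarith
  have hcd : ContDiff ℝ ⊤ γ := contDiff_crv S b δ _ _ _
  have hdiff : Differentiable ℝ γ := hcd.differentiable (by simp)
  have hper : Function.Periodic γ (2 * Real.pi) := per_crv S b δ _ _ _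
  refine ⟨γ, hcd, hper, ?_, hinj, ?_⟩
  · -- the derivative does not vanish
    intro t h0
    have hR : HasDerivAt (rho S b δ) (δ * deriv (Rt S b) t) t := by
      have h1 : HasDerivAt (Rt S b) (deriv (Rt S b) t) t :=
        ((contDiff_Rt S b).differentiable (by simp) t).hasDerivAt
      exact (h1.const_mul δ).const_add 1
    have hZ : HasDerivAt (fun t => δ * Zt S t) (δ * deriv (Zt S) t) t :=
      (((contDiff_Zt S).differentiable (by simp) t).hasDerivAt).const_mul δ
    have hc := hR.mul ((hasDerivAt_two t).cos)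
    have hs := hR.mul ((hasDerivAt_two t).sin)
    have hall := ((hc.smul_const (mom x)).add (hs.smul_const (mom y))).add
      (hZ.smul_const (mom z))
    have hall' : HasDerivAt γ _ t := hall
    rw [hall'.deriv] at h0
    obtain ⟨e1, e2, -⟩ := mom_indep hxy hxz hyz h0
    have hsc := Real.sin_sq_add_cos_sq (2 * t)
    have h3 : 2 * rho S b δ t = 0 := by
      linear_combination (-Real.sin (2 * t)) * e1 + Real.cos (2 * t) * e2 -
        (2 * rho S b δ t) * hsc
    linarith [hρ t]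
  · intro H hH himm hHb i
    set B : Set ℂ := closedBall (0 : ℂ) 1 with hB
    have hud : UniqueDiffOn ℝ B := uniqueDiffOn_convex (convex_closedBall _ _) (by
      rw [interior_closedBall _ one_ne_zero]
      exact ⟨0, mem_ball_self one_pos⟩)
    have hAi : A i ≠ 0 := hx' i
    set ξ' : E3 := (A i)⁻¹ • ξ i with hξ'
    have hheight : ∀ t, ⟪γ t, ξ'⟫ = hgt S b δ (a i) t := by
      intro t
      rw [hξ', real_inner_smul_right, hγ, inner_crv]
      unfold hgt qq
      rw [hbi]
      simp only [ha, hβ]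
      have e1 : ⟪mom x, ξ i⟫ = A i := rfl
      rw [e1]
      field_simp
    set f : ℂ → ℝ := fun w => ⟪H w, ξ'⟫ with hf
    have hfd : ∀ w ∈ B, ∀ v, fderivWithin ℝ f B w v = ⟪fderivWithin ℝ H B w v, ξ'⟫ := by
      intro w hw v
      have h1 : HasFDerivWithinAt H (fderivWithin ℝ H B w) B w :=
        ((hH.differentiableOn one_ne_zero) w hw).hasFDerivWithinAt
      have h2 := h1.inner ℝ (hasFDerivWithinAt_const ξ' w B)
      have h3 := h2.fderivWithin (hud w hw)
      have h4 : fderivWithin ℝ f B w = _ := h3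
      rw [h4]
      simp
    have hfC : ContDiffOn ℝ 1 f B := hH.inner ℝ contDiffOn_const
    have hmem : ∀ w : ℂ, ‖w‖ = 1 → ∃ t, γ t = H w := by
      intro w hw
      have : H w ∈ range γ := by
        rw [← hHb]
        exact ⟨w, mem_sphere_zero_iff_norm.2 hw, rfl⟩
      exact this
    have hft : ∀ w t, γ t = H w → f w = hgt S b δ (a i) t := by
      intro w t h
      rw [← hheight t, h]
    set c := √(1 + a i ^ 2) with hc
    have hc0 : 0 < c := Real.sqrt_pos.2 (by positivity)
    have hG := hgood (a i) (hSa i)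
    obtain ⟨t1, ht1⟩ := exists_top (a i)
    have ht2 : qq (a i) (2 * (t1 + Real.pi)) = c := by rw [qq_shift, ht1]
    obtain ⟨P, hP, hPt⟩ : ∃ P : ℂ, ‖P‖ = 1 ∧ H P = γ t1 := by
      have : γ t1 ∈ H '' sphere (0 : ℂ) 1 := by rw [hHb]; exact mem_range_self _
      obtain ⟨P, hP, h⟩ := this
      exact ⟨P, mem_sphere_zero_iff_norm.1 hP, h⟩
    obtain ⟨Q, hQ, hQt⟩ : ∃ Q : ℂ, ‖Q‖ = 1 ∧ H Q = γ (t1 + Real.pi) := by
      have : γ (t1 + Real.pi) ∈ H '' sphere (0 : ℂ) 1 := by rw [hHb]; exact mem_range_self _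
      obtain ⟨P, hP, h⟩ := this
      exact ⟨P, mem_sphere_zero_iff_norm.1 hP, h⟩
    have hγne : γ t1 ≠ γ (t1 + Real.pi) := by
      intro h
      obtain ⟨n, hn⟩ := hinj _ _ h
      have hpi := Real.pi_pos
      have h1 : Real.pi = (n : ℝ) * (2 * Real.pi) := by linarith
      have h2 : (1:ℝ) = n * 2 := by
        have h3 : Real.pi * 1 = Real.pi * ((n : ℝ) * 2) := by linarith
        exact mul_left_cancel₀ hpi.ne' h3
      have h4 : (1:ℤ) = n * 2 := by exact_mod_cast h2
      omega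
    have k1 : ∀ w : ℂ, ‖w‖ = 1 → -c ≤ f w ∧ f w ≤ c := by
      intro w hw
      obtain ⟨t, ht⟩ := hmem w hw
      rw [hft w t ht]
      exact (hG t).1
    have k2 : ∀ w : ℂ, ‖w‖ = 1 → -c < f w → f w < c →
        fderivWithin ℝ f B w (Complex.I * w) ≠ 0 := by
      intro w hw h1 h2
      obtain ⟨t, ht⟩ := hmem w hw
      rw [hft w t ht] at h1 h2
      obtain ⟨h', hh', hne⟩ := (hG t).2.2 h1 h2
      have hwB : w ∈ B := by rw [hB, mem_closedBall_zero_iff, hw]
      rw [hfd w hwB]
      have hγd : HasDerivAt γ (deriv γ t) t := (hdiff t).hasDerivAt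
      have hip : ⟪deriv γ t, ξ'⟫ = h' := by
        have e1 := hγd.inner ℝ (hasDerivAt_const t ξ')
        simp only [inner_zero_right, zero_add] at e1
        have e2 : (fun t => ⟪γ t, ξ'⟫) = hgt S b δ (a i) := funext hheight
        rw [e2] at e1
        exact e1.unique hh'
      refine tang hdiff.continuous hper hinj hγd (by rw [hip]; exact hne) hH
        (fun w hw => hmem w hw) hw ht.symm ?_
      intro hv0
      have hI := himm w hwB (a₁ := Complex.I * w) (a₂ := 0) (by rw [hv0, map_zero])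
      have hw0 : w ≠ 0 := by
        rintro rfl
        simp at hw
      exact mul_ne_zero Complex.I_ne_zero hw0 hI
    have k3 : f P = c := by
      rw [hft P t1 hPt.symm]
      exact hgt_top (hSa i) δ ht1
    have k4 : f Q = c := by
      rw [hft Q _ hQt.symm]
      exact hgt_top (hSa i) δ ht2
    have k5 : P ≠ Q := by
      intro h
      apply hγne
      rw [← hPt, ← hQt, h]
    have k6 : ∀ C : Set ℂ, IsPreconnected C → (∀ x ∈ C, ‖x‖ = 1 ∧ f x = c) → P ∈ C → Q ∉ C := by
      intro C hC hCM hPC hQC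
      have htwo : ∀ w ∈ C, H w = γ t1 ∨ H w = γ (t1 + Real.pi) := by
        intro w hw
        obtain ⟨hw1, hw2⟩ := hCM w hw
        obtain ⟨t, ht⟩ := hmem w hw1
        rw [hft w t ht] at hw2
        have h1 := (hG t).2.1 hw2
        rcases top_points ht1 h1 with ⟨n, hn⟩ | ⟨n, hn⟩
        · left
          rw [← ht, hn]
          exact hper.int_mul n t1
        · right
          rw [← ht, hn]
          exact hper.int_mul n (t1 + Real.pi)
      set g : ℂ → ℝ := fun w => ‖H w - γ t1‖ with hg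
      have hCB : C ⊆ B := fun w hw => by
        rw [hB, mem_closedBall_zero_iff, (hCM w hw).1]
      have hgc : ContinuousOn g C := ((hH.continuousOn.mono hCB).sub continuousOn_const).norm
      have hgP : g P = 0 := by simp only [hg]; rw [hPt, sub_self, norm_zero]
      have hgQ : g Q = ‖γ (t1 + Real.pi) - γ t1‖ := by simp only [hg]; rw [hQt]
      have hd0 : 0 < ‖γ (t1 + Real.pi) - γ t1‖ := norm_pos_iff.2 (sub_ne_zero.2 hγne.symm)
      have hmid : ‖γ (t1 + Real.pi) - γ t1‖ / 2 ∈ Icc (g P) (g Q) := by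
        rw [hgP, hgQ]
        exact ⟨by linarith, by linarith⟩
      obtain ⟨w, hw, hgw⟩ := hC.intermediate_value hPC hQC hgc hmid
      rcases htwo w hw with h | h
      · simp only [hg] at hgw
        rw [h, sub_self, norm_zero] at hgw
        linarith
      · simp only [hg] at hgw
        rw [h] at hgw
        linarith
    obtain ⟨w, hw, hw0⟩ := critical hfC (m := -c) (M := c) (by linarith) k1 k2 hP hQ k3 k4 k5 k6
    refine ⟨w, hw, fun v => ?_⟩
    have h1 := hfd w hw v
    rw [hw0] at h1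
    have h2 : ⟪fderivWithin ℝ H B w v, ξ i⟫ = A i * ⟪fderivWithin ℝ H B w v, ξ'⟫ := by
      rw [hξ', real_inner_smul_right, ← mul_assoc, mul_inv_cancel₀ hAi, one_mul]
    rw [h2, ← h1]
    exact mul_zero _

end

end Pool.Agent.Q192.FD
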