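import Mathlib

/-!
# Superlevel sets on the closed disc and critical points (helper192)

A function on the closed unit disc whose boundary values have no critical value strictly between
their extreme values, and attain the maximum on a disconnected set, has a critical point.
-/

set_option autoImplicit false

open Set Filter Topology Metric

namespace Pool.Agent.Q192.FD

/-- the part of `B` where `f` is larger than `c` -/
def Up (f : ℂ → ℝ) (B : Set ℂ) (c : ℝ) : Set ℂ := {x | x ∈ B ∧ c < f x}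

/-- the part of `B` where `f` is at least `c` -/
def Cl (f : ℂ → ℝ) (B : Set ℂ) (c : ℝ) : Set ℂ := {x | x ∈ B ∧ c ≤ f x}

lemma up_sub {f : ℂ → ℝ} {B : Set ℂ} {c : ℝ} : Up f B c ⊆ Cl f B c := fun _ h => ⟨h.1, h.2.le⟩

/-- the local structure near `x` at level `c` -/
def Loc (f : ℂ → ℝ) (B : Set ℂ) (c : ℝ) (x : ℂ) : Prop :=
  ∃ N : Set ℂ, IsOpen N ∧ x ∈ N ∧ (∀ y ∈ N, y ∈ Up f B c → ∀ z ∈ N, z ∈ Up f B c →
    JoinedIn (Up f B c) y z) ∧ ∀ y ∈ N, y ∈ Cl f B c → y ∈ closure (N ∩ Up f B c)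

lemma loc_of_chart {f : ℂ → ℝ} {B : Set ℂ} {c : ℝ} {x : ℂ} {N : Set ℂ} (hN : IsOpen N) (hx : x ∈ N)
    (Φ : ℝ → ℝ → ℂ) (a : ℝ) (J : Set ℝ) (hJ : Convex ℝ J)
    (hc1 : ∀ β, Continuous fun α => Φ α β) (hc2 : Continuous fun β => Φ a β)
    (h1 : ∀ y ∈ N, y ∈ B → ∃ α ∈ Ioo (-a) a, ∃ β ∈ J, Φ α β = y)
    (h2 : ∀ α ∈ Icc (-a) a, ∀ β ∈ J, Φ α β ∈ B)
    (h3 : ∀ β ∈ J, StrictMonoOn (fun α => f (Φ α β)) (Icc (-a) a))
    (h4 : ∀ β ∈ J, c < f (Φ a β)) : Loc f B c x := by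
  refine ⟨N, hN, hx, ?_, ?_⟩
  · intro y hy hyU z hz hzU
    obtain ⟨α, hα, β, hβ, rfl⟩ := h1 y hy hyU.1
    obtain ⟨α', hα', β', hβ', rfl⟩ := h1 z hz hzU.1
    have key : ∀ α ∈ Ioo (-a) a, ∀ β ∈ J, Φ α β ∈ Up f B c →
        JoinedIn (Up f B c) (Φ α β) (Φ a β) := by
      intro α hα β hβ hU
      have hp : IsPathConnected ((fun α => Φ α β) '' Icc α a) :=
        ((convex_Icc α a).isPathConnected ⟨α, left_mem_Icc.2 hα.2.le⟩).image (hc1 β)
      refine (hp.joinedIn _ ⟨α, left_mem_Icc.2 hα.2.le, rfl⟩ _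
        ⟨a, right_mem_Icc.2 hα.2.le, rfl⟩).mono ?_
      rintro _ ⟨t, ht, rfl⟩
      have htI : t ∈ Icc (-a) a := ⟨hα.1.le.trans ht.1, ht.2⟩
      refine ⟨h2 t htI β hβ, hU.2.trans_le ?_⟩
      exact (h3 β hβ).monotoneOn (Ioo_subset_Icc_self hα) htI ht.1
    have hp2 : IsPathConnected ((fun β => Φ a β) '' J) :=
      (hJ.isPathConnected ⟨β, hβ⟩).image hc2
    have haI : a ∈ Icc (-a) a := ⟨by linarith [hα.1, hα.2], le_rfl⟩
    have hmid : JoinedIn (Up f B c) (Φ a β) (Φ a β') := by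
      refine (hp2.joinedIn _ ⟨β, hβ, rfl⟩ _ ⟨β', hβ', rfl⟩).mono ?_
      rintro _ ⟨t, ht, rfl⟩
      exact ⟨h2 a haI t ht, h4 t ht⟩
    exact ((key α hα β hβ hyU).trans hmid).trans (key α' hα' β' hβ' hzU).symm
  · intro y hy hyA
    obtain ⟨α, hα, β, hβ, rfl⟩ := h1 y hy hyA.1
    have ht : Tendsto (fun α => Φ α β) (𝓝[>] α) (𝓝 (Φ α β)) :=
      ((hc1 β).tendsto α).mono_left nhdsWithin_le_nhds
    refine mem_closure_of_tendsto ht ?_
    have e1 : ∀ᶠ t in 𝓝[>] α, Φ t β ∈ N := ht.eventually (hN.mem_nhds hy)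
    have e2 : ∀ᶠ t in 𝓝[>] α, t ∈ Ioo α a := Ioo_mem_nhdsGT hα.2
    filter_upwards [e1, e2] with t ht1 ht2
    have htI : t ∈ Icc (-a) a := ⟨hα.1.le.trans ht2.1.le, ht2.2.le⟩
    exact ⟨ht1, h2 t htI β hβ, hyA.2.trans_lt (h3 β hβ (Ioo_subset_Icc_self hα) htI ht2.1)⟩

/-- step (a) -/
lemma joined_of_comp {f : ℂ → ℝ} {B : Set ℂ} {c : ℝ} {P Q : ℂ} (hP : P ∈ Up f B c)
    (hQ : Q ∈ Up f B c) (hL : ∀ x ∈ Cl f B c, Loc f B c x)
    (h : Q ∈ connectedComponentIn (Cl f B c) P) : JoinedIn (Up f B c) P Q := by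
  set V : Set ℂ := {x | JoinedIn (Up f B c) P x} with hV
  have hVU : V ⊆ Up f B c := fun x hx => hx.target_mem
  have hPV : P ∈ V := JoinedIn.refl hP
  -- near each point of the closure of `V` the set `Cl` is in the closure of `V`
  have hloc : ∀ x ∈ Cl f B c, x ∈ closure V → ∃ N : Set ℂ, IsOpen N ∧ x ∈ N ∧
      (∀ y ∈ N, y ∈ Up f B c → y ∈ V) ∧ ∀ y ∈ N, y ∈ Cl f B c → y ∈ closure V := by
    intro x hx hxV
    obtain ⟨N, hN, hxN, h1, h2⟩ := hL x hx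
    obtain ⟨y, hyN, hyV⟩ := mem_closure_iff.1 hxV N hN hxN
    have h3 : ∀ z ∈ N, z ∈ Up f B c → z ∈ V := fun z hz hzU =>
      JoinedIn.trans hyV (h1 y hyN (hVU hyV) z hz hzU)
    refine ⟨N, hN, hxN, h3, fun z hz hzA => ?_⟩
    exact closure_mono (fun w hw => h3 w hw.1 hw.2) (h2 z hz hzA)
  have hsub : connectedComponentIn (Cl f B c) P ⊆ closure V := by
    have hpre : IsPreconnected (connectedComponentIn (Cl f B c) P) :=
      isPreconnected_connectedComponentIn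
    set O1 : Set ℂ := ⋃ (N : Set ℂ) (_ : IsOpen N ∧ ∀ y ∈ N, y ∈ Cl f B c → y ∈ closure V), N
      with hO1
    have hO1o : IsOpen O1 := isOpen_iUnion fun N => isOpen_iUnion fun hN => hN.1
    have hcov : connectedComponentIn (Cl f B c) P ⊆ O1 ∪ (closure V)ᶜ := by
      intro x hx
      by_cases hxV : x ∈ closure V
      · left
        obtain ⟨N, hN, hxN, -, h2⟩ := hloc x (connectedComponentIn_subset _ _ hx) hxV
        exact mem_iUnion₂.2 ⟨N, ⟨hN, h2⟩, hxN⟩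
      · exact Or.inr hxV
    intro x hx
    by_contra hxV
    obtain ⟨y, hy, hy1, hy2⟩ := hpre O1 (closure V)ᶜ hO1o isClosed_closure.isOpen_compl hcov
      ⟨P, mem_connectedComponentIn (up_sub hP), by
        obtain ⟨N, hN, hxN, -, h2⟩ := hloc P (up_sub hP) (subset_closure hPV)
        exact mem_iUnion₂.2 ⟨N, ⟨hN, h2⟩, hxN⟩⟩ ⟨x, hx, hxV⟩
    obtain ⟨N, ⟨-, hN⟩, hyN⟩ := mem_iUnion₂.1 hy1
    exact hy2 (hN y hyN (connectedComponentIn_subset _ _ hy))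
  obtain ⟨N, -, hQN, h1, -⟩ := hloc Q (up_sub hQ) (hsub h)
  exact h1 Q hQN hQ

/-- step (b) -/
lemma comp_of_joined {f : ℂ → ℝ} {B : Set ℂ} {c : ℝ} {P Q : ℂ} (hf : ContinuousOn f B)
    (h : JoinedIn (Up f B c) P Q) :
    ∃ c', c < c' ∧ Q ∈ connectedComponentIn (Cl f B c') P := by
  obtain ⟨γ, hγ⟩ := h
  have hcont : Continuous fun t => f (γ t) :=
    continuousOn_univ.1 (hf.comp γ.continuous.continuousOn fun t _ => (hγ t).1)
  obtain ⟨t0, -, ht0⟩ := isCompact_univ.exists_isMinOn (univ_nonempty (α := unitInterval))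
    hcont.continuousOn
  refine ⟨f (γ t0), (hγ t0).2, ?_⟩
  have hsub : range γ ⊆ Cl f B (f (γ t0)) := by
    rintro _ ⟨t, rfl⟩
    exact ⟨(hγ t).1, ht0 (mem_univ t)⟩
  have hpre : IsPreconnected (range γ) := isPreconnected_range γ.continuous
  exact hpre.subset_connectedComponentIn ⟨0, γ.source⟩ hsub ⟨1, γ.target⟩

/-- step (c) -/
lemma comp_limit {f : ℂ → ℝ} {B : Set ℂ} (hB : IsCompact B) (hf : ContinuousOn f B) {c0 c : ℝ}
    (hc : c0 < c) {P Q : ℂ} (hP : P ∈ Cl f B c) (hQ : Q ∈ Cl f B c)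
    (h : ∀ c', c0 < c' → c' < c → Q ∈ connectedComponentIn (Cl f B c') P) :
    Q ∈ connectedComponentIn (Cl f B c) P := by
  have hcl : ∀ c, IsCompact (Cl f B c) := fun c => by
    have : Cl f B c = B ∩ f ⁻¹' Ici c := by
      ext x; rfl
    rw [this]
    exact hB.of_isClosed_subset (hf.preimage_isClosed_of_isClosed hB.isClosed isClosed_Ici)
      inter_subset_left
  by_contra hcon
  have : CompactSpace (Cl f B c) := isCompact_iff_compactSpace.1 (hcl c)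
  set P' : Cl f B c := ⟨P, hP⟩
  set Q' : Cl f B c := ⟨Q, hQ⟩
  have hne : Q' ∉ connectedComponent P' := by
    intro hq
    apply hcon
    rw [connectedComponentIn_eq_image hP]
    exact ⟨Q', hq, rfl⟩
  rw [connectedComponent_eq_iInter_isClopen, mem_iInter] at hne
  push Not at hne
  obtain ⟨⟨Z, hZ, hPZ⟩, hQZ⟩ := hne
  have hK1 : IsCompact ((↑) '' Z : Set ℂ) := (hZ.1.isCompact).image continuous_subtype_val
  have hK2 : IsCompact ((↑) '' Zᶜ : Set ℂ) :=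
    (hZ.compl.1.isCompact).image continuous_subtype_val
  have hdisj : Disjoint ((↑) '' Z : Set ℂ) ((↑) '' Zᶜ : Set ℂ) :=
    (disjoint_image_iff Subtype.val_injective).2 disjoint_compl_right
  obtain ⟨O1, O2, hO1, hO2, hZ1, hZ2, hd⟩ := SeparatedNhds.of_isCompact_isCompact hK1 hK2 hdisj
  -- a slightly lower level is still covered
  obtain ⟨c', hc0', hc', hcov⟩ : ∃ c', c0 < c' ∧ c' < c ∧ Cl f B c' ⊆ O1 ∪ O2 := by
    have hR : IsCompact (B \ (O1 ∪ O2)) := hB.diff (hO1.union hO2)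
    rcases (B \ (O1 ∪ O2)).eq_empty_or_nonempty with he | hne
    · obtain ⟨c', h1, h2⟩ := exists_between hc
      refine ⟨c', h1, h2, fun x hx => ?_⟩
      by_contra hx2
      have : x ∈ B \ (O1 ∪ O2) := ⟨hx.1, hx2⟩
      rw [he] at this
      exact this
    · obtain ⟨x0, hx0, hmax⟩ := hR.exists_isMaxOn hne (hf.mono sdiff_subset)
      have hlt : f x0 < c := by
        by_contra hge
        push Not at hge
        have hxA : x0 ∈ Cl f B c := ⟨hx0.1, hge⟩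
        apply hx0.2
        by_cases hz : (⟨x0, hxA⟩ : Cl f B c) ∈ Z
        · exact Or.inl (hZ1 ⟨_, hz, rfl⟩)
        · exact Or.inr (hZ2 ⟨_, hz, rfl⟩)
      obtain ⟨c', h1, h2⟩ := exists_between (max_lt hlt hc)
      refine ⟨c', (le_max_right _ _).trans_lt h1, h2, fun x hx => ?_⟩
      by_contra hx2
      have := hmax (show x ∈ B \ (O1 ∪ O2) from ⟨hx.1, hx2⟩)
      have h3 : f x ≤ f x0 := this
      linarith [hx.2, le_max_left (f x0) c0]
  have hpre : IsPreconnected (connectedComponentIn (Cl f B c') P) :=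
    isPreconnected_connectedComponentIn
  have hPc : P ∈ connectedComponentIn (Cl f B c') P :=
    mem_connectedComponentIn ⟨hP.1, hc'.le.trans hP.2⟩
  obtain ⟨y, -, hy1, hy2⟩ := hpre O1 O2 hO1 hO2
    ((connectedComponentIn_subset _ _).trans hcov) ⟨P, hPc, hZ1 ⟨P', hPZ, rfl⟩⟩
    ⟨Q, h c' hc0' hc', hZ2 ⟨Q', hQZ, rfl⟩⟩
  exact (Set.disjoint_left.1 hd) hy1 hy2

end Pool.Agent.Q192.FD
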